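import Mathlib

/-!
# Signed numbers of chains in finite posets
-/

set_option autoImplicit false

open scoped Classical

noncomputable section

namespace Pool.Agent.Q99.AS

variable {α : Type} [PartialOrder α] [Fintype α]

/-- the chains in `T` -/
def Ch (T : Finset α) : Finset (Finset α) :=
  Finset.univ.filter fun σ => IsChain (· ≤ ·) (σ : Set α) ∧ σ ⊆ T

theorem mem_Ch {T σ : Finset α} : σ ∈ Ch T ↔ IsChain (· ≤ ·) (σ : Set α) ∧ σ ⊆ T := by
  simp [Ch]

/-- the signed number of chains in `T` -/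
def ec (T : Finset α) : ℤ := ∑ σ ∈ Ch T, (-1) ^ σ.card

/-- the elements of `T` below `x` -/
def bl (T : Finset α) (x : α) : Finset α := T.filter (· < x)

omit [Fintype α] in
theorem mem_bl {T : Finset α} {x y : α} : y ∈ bl T x ↔ y ∈ T ∧ y < x := by simp [bl]

/-- chains grouped by their largest members -/
theorem ec_eq (T : Finset α) : ec T = 1 - ∑ y ∈ T, ec (bl T y) := by
  have h0 : (∅ : Finset α) ∈ Ch T := by
    rw [mem_Ch]
    simp
  have h1 : ec T = 1 + ∑ σ ∈ (Ch T).erase ∅, (-1) ^ σ.card := by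
    unfold ec
    rw [← Finset.add_sum_erase _ _ h0]
    simp
  rw [h1, sub_eq_add_neg, add_right_inj, ← Finset.sum_neg_distrib]
  have h2 : ∑ y ∈ T, -ec (bl T y) = ∑ y ∈ T, ∑ τ ∈ Ch (bl T y), (-1) ^ (τ.card + 1) := by
    refine Finset.sum_congr rfl fun y _ => ?_
    unfold ec
    rw [← Finset.sum_neg_distrib]
    exact Finset.sum_congr rfl fun τ _ => by ring
  rw [h2, Finset.sum_sigma']
  symm
  refine Finset.sum_bij (fun (a : Σ _ : α, Finset α) _ => insert a.1 a.2) ?_ ?_ ?_ ?_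
  · rintro ⟨y, τ⟩ h
    obtain ⟨hy, hτ⟩ := Finset.mem_sigma.1 h
    simp only at hy hτ
    rw [mem_Ch] at hτ
    rw [Finset.mem_erase, mem_Ch]
    refine ⟨(Finset.insert_nonempty _ _).ne_empty, ?_, ?_⟩
    · rw [Finset.coe_insert]
      refine hτ.1.insert fun z hz _ => Or.inr ?_
      exact (mem_bl.1 (hτ.2 hz)).2.le
    · intro z hz
      rcases Finset.mem_insert.1 hz with rfl | hz
      · exact hy
      · exact (mem_bl.1 (hτ.2 hz)).1
  · rintro ⟨y, τ⟩ h ⟨y', τ'⟩ h' e
    obtain ⟨hy, hτ⟩ := Finset.mem_sigma.1 h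
    obtain ⟨hy', hτ'⟩ := Finset.mem_sigma.1 h'
    simp only at hy hτ hy' hτ' e
    rw [mem_Ch] at hτ hτ'
    have e1 : y = y' := by
      have h3 : y ∈ insert y' τ' := e ▸ Finset.mem_insert_self y τ
      have h4 : y' ∈ insert y τ := e ▸ Finset.mem_insert_self y' τ'
      rcases Finset.mem_insert.1 h3 with h3 | h3
      · exact h3
      · rcases Finset.mem_insert.1 h4 with h4 | h4
        · exact h4.symm
        · exact absurd (mem_bl.1 (hτ'.2 h3)).2 (lt_asymm (mem_bl.1 (hτ.2 h4)).2)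
    subst e1
    have hn : y ∉ τ := fun h => lt_irrefl _ (mem_bl.1 (hτ.2 h)).2
    have hn' : y ∉ τ' := fun h => lt_irrefl _ (mem_bl.1 (hτ'.2 h)).2
    have : τ = τ' := by
      rw [← Finset.erase_insert hn, e, Finset.erase_insert hn']
    subst this
    rfl
  · intro σ hσ
    rw [Finset.mem_erase, mem_Ch] at hσ
    obtain ⟨hne, hc, hT⟩ := hσ
    obtain ⟨y, hy, hmax⟩ : ∃ y ∈ σ, ∀ z ∈ σ, z ≤ y := by
      obtain ⟨y, hy⟩ := σ.exists_maximal (Finset.nonempty_iff_ne_empty.2 hne)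
      refine ⟨y, hy.1, fun z hz => ?_⟩
      rcases hc.total hz hy.1 with h | h
      · exact h
      · exact hy.2 hz h
    refine ⟨⟨y, σ.erase y⟩, ?_, Finset.insert_erase hy⟩
    rw [Finset.mem_sigma]
    refine ⟨hT hy, ?_⟩
    simp only
    rw [mem_Ch]
    refine ⟨hc.mono (by simp), fun z hz => ?_⟩
    rw [Finset.mem_erase] at hz
    exact mem_bl.2 ⟨hT hz.2, lt_of_le_of_ne (hmax z hz.2) hz.1⟩
  · rintro ⟨y, τ⟩ h
    obtain ⟨hy, hτ⟩ := Finset.mem_sigma.1 h
    simp only at hy hτ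
    rw [mem_Ch] at hτ
    have hn : y ∉ τ := fun h => lt_irrefl _ (mem_bl.1 (hτ.2 h)).2
    simp only
    rw [Finset.card_insert_of_notMem hn]

theorem mem_filter' {β : Type} (p : β → Prop) (inst : DecidablePred p) (s : Finset β) (a : β) :
    a ∈ @Finset.filter β p inst s ↔ a ∈ s ∧ p a := by simp

/-- `μ` is a Moebius function of `S` at `b` -/
def Mu (S : Finset α) (b : α) (μ : α → ℤ) : Prop :=
  ∀ x ∈ S, ∑ y ∈ S.filter (· ≤ x), μ y = if x = b then 1 else 0

/-- Hall's theorem -/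
theorem exists_mu (S : Finset α) (b : α) (hb : b ∈ S) (hle : ∀ x ∈ S, b ≤ x) :
    ∃ μ : α → ℤ, Mu S b μ ∧ ec (S.erase b) = ∑ y ∈ S, μ y := by
  set T := S.erase b with hT
  let μ : α → ℤ := fun y => if y = b then 1 else -ec (bl T y)
  have hμb : μ b = 1 := if_pos rfl
  have hμ : ∀ y, y ≠ b → μ y = -ec (bl T y) := fun y hy => if_neg hy
  refine ⟨μ, ?_, ?_⟩
  · intro x hx
    by_cases hxb : x = b
    · subst hxb
      rw [if_pos rfl]
      have : S.filter (· ≤ x) = {x} := by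
        ext y
        simp only [Finset.mem_filter, Finset.mem_singleton]
        constructor
        · rintro ⟨h1, h2⟩
          exact le_antisymm h2 (hle y h1)
        · rintro rfl
          exact ⟨hx, le_rfl⟩
      rw [this, Finset.sum_singleton, hμb]
    · rw [if_neg hxb]
      have h1 : S.filter (· ≤ x) = insert b (insert x (bl T x)) := by
        ext y
        simp only [Finset.mem_filter, Finset.mem_insert, mem_bl, hT, Finset.mem_erase]
        constructor
        · rintro ⟨h1, h2⟩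
          by_cases h3 : y = b
          · exact Or.inl h3
          · rcases h2.lt_or_eq with h4 | h4
            · exact Or.inr (Or.inr ⟨⟨h3, h1⟩, h4⟩)
            · exact Or.inr (Or.inl h4)
        · rintro (rfl | rfl | ⟨⟨h1, h2⟩, h3⟩)
          · exact ⟨hb, hle x hx⟩
          · exact ⟨hx, le_rfl⟩
          · exact ⟨h2, h3.le⟩
      have hx1 : x ∉ bl T x := fun h => lt_irrefl _ (mem_bl.1 h).2
      have hb1 : b ∉ insert x (bl T x) := by
        rw [Finset.mem_insert, mem_bl, hT, Finset.mem_erase]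
        rintro (h | ⟨⟨h, -⟩, -⟩)
        · exact hxb h.symm
        · exact h rfl
      rw [h1, Finset.sum_insert hb1, Finset.sum_insert hx1, hμb, hμ x hxb, ec_eq (bl T x)]
      have h2 : ∑ y ∈ bl T x, μ y = -∑ y ∈ bl T x, ec (bl (bl T x) y) := by
        rw [← Finset.sum_neg_distrib]
        refine Finset.sum_congr rfl fun y hy => ?_
        have hy' := mem_bl.1 hy
        have hyb : y ≠ b := by
          intro h
          have := hy'.1
          rw [hT, Finset.mem_erase] at this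
          exact this.1 h
        rw [hμ y hyb]
        congr 2
        ext z
        rw [mem_bl, mem_bl, mem_bl]
        constructor
        · rintro ⟨h3, h4⟩
          exact ⟨⟨h3, h4.trans hy'.2⟩, h4⟩
        · rintro ⟨⟨h3, -⟩, h4⟩
          exact ⟨h3, h4⟩
      rw [h2]
      ring
  · have h1 : S = insert b T := by rw [hT, Finset.insert_erase hb]
    have hbT : b ∉ T := by rw [hT]; exact Finset.notMem_erase b S
    rw [ec_eq T]
    conv_rhs => rw [h1]
    rw [Finset.sum_insert hbT, hμb, sub_eq_add_neg, ← Finset.sum_neg_distrib, add_right_inj]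
    refine Finset.sum_congr rfl fun y hy => ?_
    rw [hμ y (fun h => hbT (h ▸ hy))]

theorem mu_unique {S : Finset α} {b : α} {μ μ' : α → ℤ} (h : Mu S b μ) (h' : Mu S b μ') :
    ∀ x ∈ S, μ x = μ' x := by
  intro x
  induction x using WellFoundedLT.induction with
  | ind x ih =>
    intro hx
    have h1 := h x hx
    have h2 := h' x hx
    have h3 : S.filter (· ≤ x) = insert x (S.filter (· < x)) := by
      ext y
      simp only [Finset.mem_filter, Finset.mem_insert]
      constructor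
      · rintro ⟨h1, h2⟩
        rcases h2.lt_or_eq with h4 | h4
        · exact Or.inr ⟨h1, h4⟩
        · exact Or.inl h4
      · rintro (rfl | ⟨h1, h2⟩)
        · exact ⟨hx, le_rfl⟩
        · exact ⟨h1, h2.le⟩
    have hx1 : x ∉ S.filter (· < x) := by simp
    rw [h3, Finset.sum_insert hx1] at h1 h2
    have h4 : ∑ y ∈ S.filter (· < x), μ y = ∑ y ∈ S.filter (· < x), μ' y :=
      Finset.sum_congr rfl fun y hy => ih y (Finset.mem_filter.1 hy).2 (Finset.mem_filter.1 hy).1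
    rw [h4] at h1
    linarith

theorem ec_of_mu {S : Finset α} {b : α} {μ : α → ℤ} (h : Mu S b μ) (hb : b ∈ S)
    (hle : ∀ x ∈ S, b ≤ x) : ec (S.erase b) = ∑ y ∈ S, μ y := by
  obtain ⟨μ', h1, h2⟩ := exists_mu S b hb hle
  rw [h2]
  exact Finset.sum_congr rfl fun y hy => (mu_unique h h1 y hy).symm

/-- A Galois connection onto a product of two posets. -/
theorem ec_prod {β γ : Type} [PartialOrder β] [Fintype β] [PartialOrder γ] [Fintype γ]
    {S : Finset α} {S₁ : Finset β} {S₂ : Finset γ} {b : α} {b₁ : β} {b₂ : γ}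
    (hb : b ∈ S) (hb₁ : b₁ ∈ S₁) (hb₂ : b₂ ∈ S₂) (hle : ∀ x ∈ S, b ≤ x) (hle₁ : ∀ x ∈ S₁, b₁ ≤ x)
    (hle₂ : ∀ x ∈ S₂, b₂ ≤ x) (l₁ : α → β) (l₂ : α → γ) (u : β → γ → α)
    (hl₁ : ∀ x ∈ S, l₁ x ∈ S₁) (hl₂ : ∀ x ∈ S, l₂ x ∈ S₂) (hu : ∀ y ∈ S₁, ∀ z ∈ S₂, u y z ∈ S)
    (hg : ∀ x ∈ S, ∀ y ∈ S₁, ∀ z ∈ S₂, x ≤ u y z ↔ l₁ x ≤ y ∧ l₂ x ≤ z)
    (hub : ∀ y ∈ S₁, ∀ z ∈ S₂, u y z = b ↔ y = b₁ ∧ z = b₂) :
    ec (S.erase b) = ec (S₁.erase b₁) * ec (S₂.erase b₂) := by
  obtain ⟨μ, hμ, e⟩ := exists_mu S b hb hle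
  obtain ⟨μ₁, hμ₁, e₁⟩ := exists_mu S₁ b₁ hb₁ hle₁
  obtain ⟨μ₂, hμ₂, e₂⟩ := exists_mu S₂ b₂ hb₂ hle₂
  rw [e, e₁, e₂]
  -- two Moebius functions of the product
  let P : Finset (β × γ) := S₁ ×ˢ S₂
  have hA : Mu P (b₁, b₂) (fun q => μ₁ q.1 * μ₂ q.2) := by
    rintro ⟨y, z⟩ hq
    obtain ⟨hy, hz⟩ := Finset.mem_product.1 hq
    simp only at hy hz
    have key : ∀ s : Finset (β × γ), (∀ q, q ∈ s ↔ q ∈ P ∧ q ≤ (y, z)) →
        ∑ q ∈ s, μ₁ q.1 * μ₂ q.2 =
          (∑ y ∈ S₁.filter (· ≤ y), μ₁ y) * ∑ z ∈ S₂.filter (· ≤ z), μ₂ z := by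
      intro s hs
      have : s = (S₁.filter (· ≤ y)) ×ˢ (S₂.filter (· ≤ z)) := by
        ext ⟨y', z'⟩
        rw [hs]
        simp only [P, Finset.mem_filter, Finset.mem_product, Prod.mk_le_mk]
        tauto
      rw [this, Finset.sum_product, Finset.sum_mul_sum]
    refine Eq.trans (key _ ?_) ?_
    · intro q
      exact mem_filter' _ _ _ _
    rw [hμ₁ y hy, hμ₂ z hz]
    by_cases h3 : y = b₁ <;> by_cases h4 : z = b₂ <;> simp [h3, h4]
  have hB : Mu P (b₁, b₂) (fun q => ∑ x ∈ S.filter (fun x => (l₁ x, l₂ x) = q), μ x) := by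
    rintro ⟨y, z⟩ hq
    obtain ⟨hy, hz⟩ := Finset.mem_product.1 hq
    simp only at hy hz
    have h1 : ∀ s : Finset (β × γ), (∀ q, q ∈ s ↔ q ∈ P ∧ q ≤ (y, z)) →
        ∑ q ∈ s, ∑ x ∈ S.filter (fun x => (l₁ x, l₂ x) = q), μ x =
        ∑ x ∈ S.filter (· ≤ u y z), μ x := by
      intro s hs
      rw [← Finset.sum_biUnion]
      · refine Finset.sum_congr ?_ fun _ _ => rfl
        ext x
        simp only [Finset.mem_biUnion, Finset.mem_filter, hs, P, Finset.mem_product, Prod.exists,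
          Prod.mk_le_mk, Prod.mk.injEq]
        constructor
        · rintro ⟨y', z', ⟨⟨h1, h2⟩, h3, h4⟩, h5, rfl, rfl⟩
          exact ⟨h5, (hg x h5 y hy z hz).2 ⟨h3, h4⟩⟩
        · rintro ⟨h5, h6⟩
          have h7 := (hg x h5 y hy z hz).1 h6
          exact ⟨l₁ x, l₂ x, ⟨⟨hl₁ x h5, hl₂ x h5⟩, h7⟩, h5, rfl, rfl⟩
      · intro q _ q' _ hne
        rw [Function.onFun, Finset.disjoint_left]
        intro x h1 h2
        exact hne ((Finset.mem_filter.1 h1).2.symm.trans (Finset.mem_filter.1 h2).2)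
    refine Eq.trans (h1 _ ?_) ?_
    · intro q
      exact mem_filter' _ _ _ _
    rw [hμ _ (hu y hy z hz)]
    by_cases h : (y, z) = (b₁, b₂)
    · rw [if_pos h, if_pos ((hub y hy z hz).2 (Prod.mk.inj h))]
    · rw [if_neg h, if_neg (fun h' => h (Prod.ext ((hub y hy z hz).1 h').1
        ((hub y hy z hz).1 h').2))]
  have h2 : ∑ q ∈ P, μ₁ q.1 * μ₂ q.2 =
      ∑ q ∈ P, ∑ x ∈ S.filter (fun x => (l₁ x, l₂ x) = q), μ x :=
    Finset.sum_congr rfl fun q hq => mu_unique hA hB q hq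
  have h3 : ∑ q ∈ P, ∑ x ∈ S.filter (fun x => (l₁ x, l₂ x) = q), μ x = ∑ x ∈ S, μ x := by
    rw [← Finset.sum_biUnion]
    · refine Finset.sum_congr ?_ fun _ _ => rfl
      ext x
      simp only [Finset.mem_biUnion, Finset.mem_filter, P, Finset.mem_product, Prod.exists,
        Prod.mk.injEq]
      constructor
      · rintro ⟨y', z', -, h5, -⟩
        exact h5
      · intro h5
        exact ⟨l₁ x, l₂ x, ⟨hl₁ x h5, hl₂ x h5⟩, h5, rfl, rfl⟩
    · intro q _ q' _ hne
      rw [Function.onFun, Finset.disjoint_left]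
      intro x h1 h2
      exact hne ((Finset.mem_filter.1 h1).2.symm.trans (Finset.mem_filter.1 h2).2)
  rw [← h3, ← h2, Finset.sum_product, Finset.sum_mul_sum]

/-- every function is a sum over lower sets -/
theorem exists_transform {R : Type} [CommRing R] (w : α → R) :
    ∃ m : α → R, ∀ x, w x = ∑ y ∈ Finset.univ.filter (· ≤ x), m y := by
  let m : α → R := WellFounded.fix (C := fun _ => R) (wellFounded_lt (α := α))
    (fun x ih => w x - ∑ y : {y : α // y < x}, ih y.1 y.2)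
  have hm : ∀ x, m x = w x - ∑ y : {y : α // y < x}, m y.1 := fun x =>
    WellFounded.fix_eq _ _ x
  refine ⟨m, fun x => ?_⟩
  have h3 : (Finset.univ.filter (· ≤ x) : Finset α) = insert x (Finset.univ.filter (· < x)) := by
    ext y
    simp only [Finset.mem_filter, Finset.mem_univ, true_and, Finset.mem_insert]
    exact ⟨fun h => h.lt_or_eq.symm.imp_left id, fun h => h.elim le_of_eq le_of_lt⟩
  have hx1 : x ∉ (Finset.univ.filter (· < x) : Finset α) := by simp
  rw [h3, Finset.sum_insert hx1, hm x]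
  have h4 : ∑ y : {y : α // y < x}, m y.1 = ∑ y ∈ Finset.univ.filter (· < x), m y := by
    rw [Finset.sum_subtype (p := fun y => y < x) _ (by simp)]
  rw [h4]
  ring

end Pool.Agent.Q99.AS
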