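import Pool.Agent.Y63.KR.Basic
import Pool.Agent.Q99.AS.Poset

/-!
# Alternating sums over chains of `p`-subgroups of a direct product
-/

set_option autoImplicit false

open scoped Classical

noncomputable section

namespace Pool.Agent.Q99.AS

open Pool.Agent.Y63.KR

section defs

variable {G : Type} [Group G]

/-- `σ` is the set `{D_1, …, D_n}` of the members other than the first one of a chain
`O = D_0 < D_1 < ⋯ < D_n` of `p`-subgroups of `G`. -/
structure IsCh (p : ℕ) (O : Subgroup G) (σ : Set (Subgroup G)) : Prop where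
  chain : IsChain (· ≤ ·) σ
  isPGroup : ∀ P ∈ σ, IsPGroup p P
  lt : ∀ P ∈ σ, O < P

/-- Conjugacy of chains. -/
def chSetoid (p : ℕ) (O : Subgroup G) : Setoid {σ : Set (Subgroup G) // IsCh p O σ} where
  r σ τ := ∃ g : G, τ.1 = conjSub g '' σ.1
  iseqv :=
    { refl := fun σ => ⟨1, by
        have : (conjSub (1 : G)) = id := funext conjSub_one
        rw [this, Set.image_id]⟩
      symm := by
        rintro σ τ ⟨g, hg⟩
        refine ⟨g⁻¹, ?_⟩
        rw [hg, ← Set.image_comp]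
        have : conjSub g⁻¹ ∘ conjSub g = id := funext fun P => by
          rw [Function.comp_apply, ← conjSub_mul, inv_mul_cancel, conjSub_one, id]
        rw [this, Set.image_id]
      trans := by
        rintro σ τ υ ⟨g, hg⟩ ⟨h, hh⟩
        refine ⟨h * g, ?_⟩
        rw [hh, hg, ← Set.image_comp]
        congr 1
        exact (funext fun P => conjSub_mul h g P).symm }

/-- The alternating sum `∑_d (-1)^|d| f(G_d)` over representatives `d` of the `G`-conjugacy classes of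
chains `O = D_0 < D_1 < ⋯ < D_n` of `p`-subgroups, `|d| = n`, `G_d` the intersection of the
normalizers of the members (`O` normal in `G`). -/
def altSum (p : ℕ) (O : Subgroup G) (f : Subgroup G → ℤ) : ℤ :=
  ∑ᶠ c : Quotient (chSetoid p O), (-1) ^ c.out.1.ncard * f (chainStabilizer c.out.1)

end defs

section count

variable {G : Type} [Group G] {p : ℕ} {O : Subgroup G}

theorem conjSub_normal (hO : O.Normal) (g : G) : conjSub g O = O := by
  rw [conjSub_eq_iff, Subgroup.normalizer_eq_top_iff.2 hO]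
  exact Subgroup.mem_top g

theorem IsCh.conj (hO : O.Normal) {σ : Set (Subgroup G)} (h : IsCh p O σ) (g : G) :
    IsCh p O (conjSub g '' σ) := by
  refine ⟨?_, ?_, ?_⟩
  · rintro _ ⟨P, hP, rfl⟩ _ ⟨Q, hQ, rfl⟩ _
    rcases h.chain.total hP hQ with h1 | h1
    · exact Or.inl (conjSub_le h1)
    · exact Or.inr (conjSub_le h1)
  · rintro _ ⟨P, hP, rfl⟩
    exact (h.isPGroup P hP).map _
  · rintro _ ⟨P, hP, rfl⟩
    have h1 := h.lt P hP
    rw [← conjSub_normal hO g]
    refine lt_of_le_of_ne (conjSub_le h1.le) fun e => h1.ne (conjSub_injective g e)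

/-- `f` is constant on conjugacy classes -/
def ConjInv (f : Subgroup G → ℤ) : Prop := ∀ (g : G) (H : Subgroup G), f (conjSub g H) = f H

theorem card_mul_altSum [Finite G] (hO : O.Normal) (f : Subgroup G → ℤ) (hf : ConjInv f)
    [Fintype {σ : Set (Subgroup G) // IsCh p O σ}] :
    (Nat.card G : ℤ) * altSum p O f =
      ∑ σ : {σ : Set (Subgroup G) // IsCh p O σ},
        (-1) ^ σ.1.ncard * ((Nat.card (chainStabilizer σ.1) : ℤ) * f (chainStabilizer σ.1)) := by
  let _ : MulAction G {σ : Set (Subgroup G) // IsCh p O σ} :=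
    { smul := fun g σ => ⟨conjSub g '' σ.1, σ.2.conj hO g⟩
      one_smul := fun σ => by
        apply Subtype.ext
        change conjSub (1 : G) '' σ.1 = σ.1
        have : (conjSub (1 : G)) = id := funext conjSub_one
        rw [this, Set.image_id]
      mul_smul := fun g h σ => by
        apply Subtype.ext
        change conjSub (g * h) '' σ.1 = conjSub g '' (conjSub h '' σ.1)
        rw [← Set.image_comp]
        congr 1
        exact funext fun P => conjSub_mul g h P }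
  have hsm : ∀ (g : G) (σ : {σ : Set (Subgroup G) // IsCh p O σ}),
      (g • σ).1 = conjSub g '' σ.1 := fun _ _ => rfl
  have h := orbit_sum (G := G) (chSetoid p O) (by
    intro σ τ
    change (∃ g : G, τ.1 = conjSub g '' σ.1) ↔ _
    constructor
    · rintro ⟨g, hg⟩
      exact ⟨g, Subtype.ext (by rw [hsm, hg])⟩
    · rintro ⟨g, hg⟩
      exact ⟨g, by rw [← hg, hsm]⟩)
    (fun σ => (-1) ^ σ.1.ncard * f (chainStabilizer σ.1)) (by
      rintro σ τ ⟨g, hg⟩
      rw [hg, ncard_conj, chainStabilizer_conj, hf])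
  unfold altSum
  rw [h]
  refine Finset.sum_congr rfl fun σ _ => ?_
  have hst : Nat.card (MulAction.stabilizer G σ) = Nat.card (chainStabilizer σ.1) := by
    refine Nat.card_congr (Equiv.subtypeEquivRight fun g => ?_)
    rw [MulAction.mem_stabilizer_iff, Subtype.ext_iff, hsm, mem_chainStabilizer]
    constructor
    · intro h3 P hP
      have hgP : conjSub g P ∈ σ.1 := by
        rw [← h3]
        exact ⟨P, hP, rfl⟩
      have hcard : Nat.card (conjSub g P) = Nat.card P :=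
        Nat.card_congr (Subgroup.equivMapOfInjective _ _ (MulAut.conj g).injective).toEquiv.symm
      rcases σ.2.chain.total hgP hP with h4 | h4
      · exact Subgroup.eq_of_le_of_card_ge h4 hcard.ge
      · exact (Subgroup.eq_of_le_of_card_ge h4 hcard.le).symm
    · intro h3
      ext P
      constructor
      · rintro ⟨Q, hQ, rfl⟩
        rw [h3 Q hQ]
        exact hQ
      · intro hP
        exact ⟨P, hP, h3 P hP⟩
  rw [hst]
  ring

variable [Fintype (Subgroup G)]

/-- the `p`-subgroups that contain `O` and are normalised by `K` -/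
def SK (p : ℕ) (O K : Subgroup G) : Finset (Subgroup G) :=
  Finset.univ.filter fun P => IsPGroup p P ∧ O ≤ P ∧ K ≤ Subgroup.normalizer (P : Set G)

theorem mem_SK {K P : Subgroup G} :
    P ∈ SK p O K ↔ IsPGroup p P ∧ O ≤ P ∧ K ≤ Subgroup.normalizer (P : Set G) := by simp [SK]

/-- the signed sum over all chains -/
def cs (p : ℕ) (O : Subgroup G) (w : Subgroup G → ℤ) : ℤ :=
  ∑ σ ∈ Ch ((SK p O ⊥).erase O), (-1) ^ σ.card * w (chainStabilizer (σ : Set (Subgroup G)))

theorem mem_chains {σ : Finset (Subgroup G)} :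
    σ ∈ Ch ((SK p O ⊥).erase O) ↔ IsCh p O (σ : Set (Subgroup G)) := by
  rw [mem_Ch]
  constructor
  · rintro ⟨h1, h2⟩
    refine ⟨h1, fun P hP => ?_, fun P hP => ?_⟩
    · exact (mem_SK.1 (Finset.mem_erase.1 (h2 hP)).2).1
    · have := Finset.mem_erase.1 (h2 hP)
      exact lt_of_le_of_ne (mem_SK.1 this.2).2.1 (Ne.symm this.1)
  · rintro ⟨h1, h2, h3⟩
    refine ⟨h1, fun P hP => ?_⟩
    rw [Finset.mem_erase, mem_SK]
    exact ⟨(h3 P hP).ne', h2 P hP, (h3 P hP).le, bot_le⟩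

theorem sum_eq_cs (w : Subgroup G → ℤ) [Fintype {σ : Set (Subgroup G) // IsCh p O σ}] :
    ∑ σ : {σ : Set (Subgroup G) // IsCh p O σ}, (-1) ^ σ.1.ncard * w (chainStabilizer σ.1) =
      cs p O w := by
  unfold cs
  refine Finset.sum_bij (fun σ _ => σ.1.toFinset) ?_ ?_ ?_ ?_
  · intro σ _
    rw [mem_chains, Set.coe_toFinset]
    exact σ.2
  · intro σ _ τ _ h
    apply Subtype.ext
    rw [← Set.coe_toFinset σ.1, h, Set.coe_toFinset]
  · intro σ hσ
    refine ⟨⟨(σ : Set (Subgroup G)), mem_chains.1 hσ⟩, Finset.mem_univ _, ?_⟩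
    simp
  · intro σ _
    rw [Set.coe_toFinset, Set.ncard_eq_toFinset_card']

omit [Fintype (Subgroup G)] in
theorem le_stab {K : Subgroup G} {σ : Set (Subgroup G)} :
    K ≤ chainStabilizer σ ↔ ∀ P ∈ σ, K ≤ Subgroup.normalizer (P : Set G) := by
  unfold chainStabilizer
  simp only [le_iInf_iff]

theorem filter_chains (K : Subgroup G) :
    (Ch ((SK p O ⊥).erase O)).filter
      (fun σ : Finset (Subgroup G) => K ≤ chainStabilizer (σ : Set (Subgroup G))) =
      Ch ((SK p O K).erase O) := by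
  ext σ
  rw [Finset.mem_filter, mem_Ch, mem_Ch, le_stab]
  constructor
  · rintro ⟨⟨h1, h2⟩, h3⟩
    refine ⟨h1, fun P hP => ?_⟩
    have := h2 hP
    rw [Finset.mem_erase, mem_SK] at this ⊢
    exact ⟨this.1, this.2.1, this.2.2.1, h3 P hP⟩
  · rintro ⟨h1, h2⟩
    refine ⟨⟨h1, fun P hP => ?_⟩, fun P hP => ?_⟩
    · have := h2 hP
      rw [Finset.mem_erase, mem_SK] at this ⊢
      exact ⟨this.1, this.2.1, this.2.2.1, bot_le⟩
    · have := h2 hP
      rw [Finset.mem_erase, mem_SK] at this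
      exact this.2.2.2

theorem sum_stab (K : Subgroup G) :
    ∑ σ ∈ Ch ((SK p O ⊥).erase O),
      (if K ≤ chainStabilizer (σ : Set (Subgroup G)) then (-1) ^ σ.card else 0 : ℤ) =
      ec ((SK p O K).erase O) := by
  rw [← Finset.sum_filter, filter_chains]
  rfl

end count

section prod

variable {G₁ G₂ : Type} [Group G₁] [Group G₂]

theorem isPGroup_prod {p : ℕ} [Fact p.Prime] [Finite G₁] [Finite G₂] {P : Subgroup G₁}
    {Q : Subgroup G₂} (hP : IsPGroup p P) (hQ : IsPGroup p Q) : IsPGroup p (P.prod Q) := by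
  rw [IsPGroup.iff_card] at hP hQ ⊢
  obtain ⟨a, ha⟩ := hP
  obtain ⟨b, hb⟩ := hQ
  refine ⟨a + b, ?_⟩
  rw [Nat.card_congr (Subgroup.prodEquiv P Q).toEquiv, Nat.card_prod, ha, hb, pow_add]

theorem mem_normalizer' {G : Type} [Group G] {P : Subgroup G} {g : G} :
    g ∈ Subgroup.normalizer (P : Set G) ↔ ∀ x, x ∈ P ↔ g * x * g⁻¹ ∈ P :=
  Subgroup.mem_normalizer_iff

theorem map_le_normalizer {G H : Type} [Group G] [Group H] (f : G →* H) {K P : Subgroup G}
    (h : K ≤ Subgroup.normalizer (P : Set G)) :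
    K.map f ≤ Subgroup.normalizer ((P.map f : Subgroup H) : Set H) := by
  rintro _ ⟨k, hk, rfl⟩
  have hk' := mem_normalizer'.1 (h hk)
  rw [mem_normalizer']
  intro x
  constructor
  · rintro ⟨y, hy, rfl⟩
    exact ⟨k * y * k⁻¹, (hk' y).1 hy, by simp⟩
  · rintro ⟨y, hy, e⟩
    refine ⟨k⁻¹ * y * k, ?_, ?_⟩
    · change k⁻¹ * y * k ∈ P
      rw [hk']
      have : k * (k⁻¹ * y * k) * k⁻¹ = y := by group
      rw [this]
      exact hy
    · rw [map_mul, map_mul, map_inv, e]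
      group

theorem prod_le_normalizer {K : Subgroup (G₁ × G₂)} {P : Subgroup G₁} {Q : Subgroup G₂}
    (h1 : K.map (MonoidHom.fst G₁ G₂) ≤ Subgroup.normalizer (P : Set G₁))
    (h2 : K.map (MonoidHom.snd G₁ G₂) ≤ Subgroup.normalizer (Q : Set G₂)) :
    K ≤ Subgroup.normalizer ((P.prod Q : Subgroup (G₁ × G₂)) : Set (G₁ × G₂)) := by
  intro k hk
  have e1 := mem_normalizer'.1 (h1 ⟨k, hk, rfl⟩)
  have e2 := mem_normalizer'.1 (h2 ⟨k, hk, rfl⟩)
  rw [mem_normalizer']
  rintro ⟨x, y⟩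
  rw [Subgroup.mem_prod, Subgroup.mem_prod]
  exact and_congr (e1 x) (e2 y)

theorem prod_eq_iff {P P' : Subgroup G₁} {Q Q' : Subgroup G₂} :
    P.prod Q = P'.prod Q' ↔ P = P' ∧ Q = Q' := by
  constructor
  · intro h
    constructor
    · ext x
      have : (x, (1 : G₂)) ∈ P.prod Q ↔ (x, (1 : G₂)) ∈ P'.prod Q' := by rw [h]
      simpa [Subgroup.mem_prod, one_mem] using this
    · ext x
      have : ((1 : G₁), x) ∈ P.prod Q ↔ ((1 : G₁), x) ∈ P'.prod Q' := by rw [h]
      simpa [Subgroup.mem_prod, one_mem] using this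
  · rintro ⟨rfl, rfl⟩
    rfl

theorem le_prod {K : Subgroup (G₁ × G₂)} {P : Subgroup G₁} {Q : Subgroup G₂} :
    K ≤ P.prod Q ↔ K.map (MonoidHom.fst G₁ G₂) ≤ P ∧ K.map (MonoidHom.snd G₁ G₂) ≤ Q :=
  Subgroup.le_prod_iff

variable [Fintype (Subgroup G₁)] [Fintype (Subgroup G₂)] [Fintype (Subgroup (G₁ × G₂))]
  [Finite G₁] [Finite G₂]

theorem ec_SK {p : ℕ} [Fact p.Prime] {O₁ : Subgroup G₁} {O₂ : Subgroup G₂} (h₁ : IsPGroup p O₁)
    (h₂ : IsPGroup p O₂) (n₁ : O₁.Normal) (n₂ : O₂.Normal) (K : Subgroup (G₁ × G₂)) :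
    ec ((SK p (O₁.prod O₂) K).erase (O₁.prod O₂)) =
      ec ((SK p O₁ (K.map (MonoidHom.fst G₁ G₂))).erase O₁) *
        ec ((SK p O₂ (K.map (MonoidHom.snd G₁ G₂))).erase O₂) := by
  have nt : ∀ {G : Type} [Group G] {O : Subgroup G} (_ : O.Normal) (K : Subgroup G),
      K ≤ Subgroup.normalizer (O : Set G) := by
    intro G _ O hO K
    rw [Subgroup.normalizer_eq_top_iff.2 hO]
    exact le_top
  refine ec_prod (mem_SK.2 ⟨isPGroup_prod h₁ h₂, le_rfl, ?_⟩) (mem_SK.2 ⟨h₁, le_rfl, nt n₁ _⟩)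
    (mem_SK.2 ⟨h₂, le_rfl, nt n₂ _⟩) (fun x hx => (mem_SK.1 hx).2.1)
    (fun x hx => (mem_SK.1 hx).2.1) (fun x hx => (mem_SK.1 hx).2.1)
    (fun P => P.map (MonoidHom.fst G₁ G₂)) (fun P => P.map (MonoidHom.snd G₁ G₂))
    (fun P Q => P.prod Q) ?_ ?_ ?_ (fun x _ y _ z _ => le_prod) (fun y _ z _ => prod_eq_iff)
  · exact prod_le_normalizer (nt n₁ _) (nt n₂ _)
  · intro P hP
    obtain ⟨a, b, c⟩ := mem_SK.1 hP
    refine mem_SK.2 ⟨a.map _, ?_, map_le_normalizer _ c⟩
    intro x hx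
    exact ⟨(x, 1), b (Subgroup.mem_prod.2 ⟨hx, one_mem _⟩), rfl⟩
  · intro P hP
    obtain ⟨a, b, c⟩ := mem_SK.1 hP
    refine mem_SK.2 ⟨a.map _, ?_, map_le_normalizer _ c⟩
    intro x hx
    exact ⟨(1, x), b (Subgroup.mem_prod.2 ⟨one_mem _, hx⟩), rfl⟩
  · intro P hP Q hQ
    obtain ⟨a, b, c⟩ := mem_SK.1 hP
    obtain ⟨a', b', c'⟩ := mem_SK.1 hQ
    exact mem_SK.2 ⟨isPGroup_prod a a', Subgroup.prod_mono b b', prod_le_normalizer c c'⟩

/-- **Signed sums over the chains of a direct product.** -/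
theorem cs_prod {p : ℕ} [Fact p.Prime] {O₁ : Subgroup G₁} {O₂ : Subgroup G₂} (h₁ : IsPGroup p O₁)
    (h₂ : IsPGroup p O₂) (n₁ : O₁.Normal) (n₂ : O₂.Normal) (w : Subgroup (G₁ × G₂) → ℤ) :
    cs p (O₁.prod O₂) w = ∑ σ ∈ Ch ((SK p O₁ ⊥).erase O₁), ∑ τ ∈ Ch ((SK p O₂ ⊥).erase O₂),
      (-1) ^ σ.card * ((-1) ^ τ.card * w ((chainStabilizer (σ : Set (Subgroup G₁))).prod
        (chainStabilizer (τ : Set (Subgroup G₂))))) := by
  obtain ⟨m, hm⟩ := exists_transform w
  have hL : cs p (O₁.prod O₂) w = ∑ K : Subgroup (G₁ × G₂), m K *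
      (ec ((SK p O₁ (K.map (MonoidHom.fst G₁ G₂))).erase O₁) *
        ec ((SK p O₂ (K.map (MonoidHom.snd G₁ G₂))).erase O₂)) := by
    unfold cs
    have h1 : ∀ σ : Finset (Subgroup (G₁ × G₂)),
        (-1 : ℤ) ^ σ.card * w (chainStabilizer (σ : Set (Subgroup (G₁ × G₂)))) =
          ∑ K : Subgroup (G₁ × G₂), m K * (if K ≤ chainStabilizer
            (σ : Set (Subgroup (G₁ × G₂))) then (-1) ^ σ.card else 0) := by
      intro σ
      rw [hm, Finset.sum_filter, Finset.mul_sum]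
      refine Finset.sum_congr rfl fun K _ => ?_
      split_ifs <;> ring
    rw [Finset.sum_congr rfl fun σ _ => h1 σ, Finset.sum_comm]
    refine Finset.sum_congr rfl fun K _ => ?_
    rw [← Finset.mul_sum, sum_stab, ec_SK h₁ h₂ n₁ n₂]
  have hR : ∀ (σ : Finset (Subgroup G₁)) (τ : Finset (Subgroup G₂)),
      (-1 : ℤ) ^ σ.card * ((-1) ^ τ.card * w ((chainStabilizer (σ : Set (Subgroup G₁))).prod
        (chainStabilizer (τ : Set (Subgroup G₂))))) =
      ∑ K : Subgroup (G₁ × G₂), m K *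
        ((if K.map (MonoidHom.fst G₁ G₂) ≤ chainStabilizer (σ : Set (Subgroup G₁)) then
          (-1) ^ σ.card else 0) *
        (if K.map (MonoidHom.snd G₁ G₂) ≤ chainStabilizer (τ : Set (Subgroup G₂)) then
          (-1) ^ τ.card else 0)) := by
    intro σ τ
    rw [hm, Finset.sum_filter, Finset.mul_sum, Finset.mul_sum]
    refine Finset.sum_congr rfl fun K _ => ?_
    by_cases a : K.map (MonoidHom.fst G₁ G₂) ≤ chainStabilizer (σ : Set (Subgroup G₁)) <;>
    by_cases b : K.map (MonoidHom.snd G₁ G₂) ≤ chainStabilizer (τ : Set (Subgroup G₂))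
    · rw [if_pos (le_prod.2 ⟨a, b⟩), if_pos a, if_pos b]; ring
    · rw [if_neg (fun h => b (le_prod.1 h).2), if_neg b]; ring
    · rw [if_neg (fun h => a (le_prod.1 h).1), if_neg a]; ring
    · rw [if_neg (fun h => a (le_prod.1 h).1), if_neg a]; ring
  rw [hL]
  simp_rw [hR]
  have h2 : ∀ σ : Finset (Subgroup G₁), ∑ τ ∈ Ch ((SK p O₂ ⊥).erase O₂),
      ∑ K : Subgroup (G₁ × G₂), m K *
        ((if K.map (MonoidHom.fst G₁ G₂) ≤ chainStabilizer (σ : Set (Subgroup G₁)) then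
          (-1 : ℤ) ^ σ.card else 0) *
        (if K.map (MonoidHom.snd G₁ G₂) ≤ chainStabilizer (τ : Set (Subgroup G₂)) then
          (-1) ^ τ.card else 0)) = ∑ K : Subgroup (G₁ × G₂), m K *
        ((if K.map (MonoidHom.fst G₁ G₂) ≤ chainStabilizer (σ : Set (Subgroup G₁)) then
          (-1) ^ σ.card else 0) * ec ((SK p O₂ (K.map (MonoidHom.snd G₁ G₂))).erase O₂)) := by
    intro σ
    rw [Finset.sum_comm]
    refine Finset.sum_congr rfl fun K _ => ?_
    rw [← Finset.mul_sum, ← Finset.mul_sum, sum_stab]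
  simp_rw [h2]
  rw [Finset.sum_comm]
  refine Finset.sum_congr rfl fun K _ => ?_
  rw [← Finset.mul_sum, ← Finset.sum_mul, sum_stab]

end prod

/-- **The alternating sums of a direct product.** -/
theorem altSum_prod {G₁ G₂ : Type} [Group G₁] [Group G₂] [Finite G₁] [Finite G₂] {p : ℕ}
    [Fact p.Prime] {O₁ : Subgroup G₁} {O₂ : Subgroup G₂} (h₁ : IsPGroup p O₁)
    (h₂ : IsPGroup p O₂) (n₁ : O₁.Normal) (n₂ : O₂.Normal) {ι : Type} (I : Finset ι)
    (f : Subgroup (G₁ × G₂) → ℤ) (a : ι → Subgroup G₁ → ℤ) (b : ι → Subgroup G₂ → ℤ)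
    (hf : ConjInv f) (ha : ∀ i, ConjInv (a i)) (hb : ∀ i, ConjInv (b i))
    (h : ∀ (H : Subgroup G₁) (K : Subgroup G₂), f (H.prod K) = ∑ i ∈ I, a i H * b i K) :
    altSum p (O₁.prod O₂) f = ∑ i ∈ I, altSum p O₁ (a i) * altSum p O₂ (b i) := by
  let _ : Fintype (Subgroup G₁) := Fintype.ofFinite _
  let _ : Fintype (Subgroup G₂) := Fintype.ofFinite _
  let _ : Fintype (Subgroup (G₁ × G₂)) := Fintype.ofFinite _
  let _ : Fintype {σ : Set (Subgroup G₁) // IsCh p O₁ σ} := Fintype.ofFinite _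
  let _ : Fintype {σ : Set (Subgroup G₂) // IsCh p O₂ σ} := Fintype.ofFinite _
  let _ : Fintype {σ : Set (Subgroup (G₁ × G₂)) // IsCh p (O₁.prod O₂) σ} := Fintype.ofFinite _
  have n : (O₁.prod O₂).Normal := Subgroup.prod_normal O₁ O₂
  have e := card_mul_altSum (p := p) n f hf
  rw [sum_eq_cs (fun H => (Nat.card H : ℤ) * f H), cs_prod h₁ h₂ n₁ n₂] at e
  have e1 : ∀ i, (Nat.card G₁ : ℤ) * altSum p O₁ (a i) =
      cs p O₁ (fun H => (Nat.card H : ℤ) * a i H) := fun i => by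
    rw [card_mul_altSum (p := p) n₁ _ (ha i), sum_eq_cs (fun H => (Nat.card H : ℤ) * a i H)]
  have e2 : ∀ i, (Nat.card G₂ : ℤ) * altSum p O₂ (b i) =
      cs p O₂ (fun H => (Nat.card H : ℤ) * b i H) := fun i => by
    rw [card_mul_altSum (p := p) n₂ _ (hb i), sum_eq_cs (fun H => (Nat.card H : ℤ) * b i H)]
  have e3 : (Nat.card (G₁ × G₂) : ℤ) * altSum p (O₁.prod O₂) f =
      (Nat.card (G₁ × G₂) : ℤ) * ∑ i ∈ I, altSum p O₁ (a i) * altSum p O₂ (b i) := by
    rw [e]
    have e4 : (Nat.card (G₁ × G₂) : ℤ) * ∑ i ∈ I, altSum p O₁ (a i) * altSum p O₂ (b i) =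
        ∑ i ∈ I, ((Nat.card G₁ : ℤ) * altSum p O₁ (a i)) *
          ((Nat.card G₂ : ℤ) * altSum p O₂ (b i)) := by
      rw [Nat.card_prod, Finset.mul_sum]
      push_cast
      exact Finset.sum_congr rfl fun i _ => by ring
    rw [e4]
    simp_rw [e1, e2, cs, Finset.sum_mul_sum]
    have e5 : ∀ (H : Subgroup G₁) (K : Subgroup G₂),
        (Nat.card (H.prod K) : ℤ) * f (H.prod K) =
          ∑ i ∈ I, ((Nat.card H : ℤ) * a i H) * ((Nat.card K : ℤ) * b i K) := by
      intro H K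
      rw [h, Nat.card_congr (Subgroup.prodEquiv H K).toEquiv, Nat.card_prod, Finset.mul_sum]
      push_cast
      exact Finset.sum_congr rfl fun i _ => by ring
    simp_rw [e5, Finset.mul_sum]
    have e6 : ∀ σ : Finset (Subgroup G₁), ∑ τ ∈ Ch ((SK p O₂ ⊥).erase O₂), ∑ i ∈ I,
        (-1 : ℤ) ^ σ.card * ((-1) ^ τ.card *
          (((Nat.card (chainStabilizer (σ : Set (Subgroup G₁))) : ℤ) *
            a i (chainStabilizer (σ : Set (Subgroup G₁)))) *
          ((Nat.card (chainStabilizer (τ : Set (Subgroup G₂))) : ℤ) *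
            b i (chainStabilizer (τ : Set (Subgroup G₂)))))) =
        ∑ i ∈ I, ∑ τ ∈ Ch ((SK p O₂ ⊥).erase O₂),
        (-1 : ℤ) ^ σ.card * ((-1) ^ τ.card *
          (((Nat.card (chainStabilizer (σ : Set (Subgroup G₁))) : ℤ) *
            a i (chainStabilizer (σ : Set (Subgroup G₁)))) *
          ((Nat.card (chainStabilizer (τ : Set (Subgroup G₂))) : ℤ) *
            b i (chainStabilizer (τ : Set (Subgroup G₂)))))) := fun σ => Finset.sum_comm
    simp_rw [e6]
    rw [Finset.sum_comm]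
    refine Finset.sum_congr rfl fun i _ => Finset.sum_congr rfl fun σ _ =>
      Finset.sum_congr rfl fun τ _ => by ring
  have hpos : (Nat.card (G₁ × G₂) : ℤ) ≠ 0 := by
    have : 0 < Nat.card (G₁ × G₂) := Nat.card_pos
    exact_mod_cast this.ne'
  exact mul_left_cancel₀ hpos e3

end Pool.Agent.Q99.AS
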