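import Pool.Agent.Y930.NV.Cen
import Pool.Agent.Q90.WR.Cls
import Pool.Agent.Q90.WR.Gal
import Pool.Agent.Q99.AS.Chain

/-!
# Irreducible characters and blocks of direct products
-/

set_option autoImplicit false

open scoped Classical

noncomputable section

namespace Pool.Agent.Q99.AS

open Pool.Agent.Helper884.IC Representation
open Pool.Agent.Q90.WR (irr_of_norm B_nat deg_pos card_filter_eq card_transport)
open Pool.Agent.Y63.NV (redC)
open Pool.Agent.Y63.KR (conjSub)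
open Pool.Agent.Y930.NV (om om_int redC_mul redC_one Cf irr_Cf)

section prod

variable {G H : Type} [Group G] [Group H]

/-- the character `θ ⊗ ψ` of `G × H` -/
def ten (θ : G → ℂ) (ψ : H → ℂ) : G × H → ℂ := fun x => θ x.1 * ψ x.2

variable [Fintype G] [Fintype H]

theorem B_ten (θ θ' : G → ℂ) (ψ ψ' : H → ℂ) :
    B (ten θ ψ) (ten θ' ψ') = B θ θ' * B ψ ψ' := by
  unfold B ten
  rw [Nat.card_prod, Fintype.sum_prod_type]
  push_cast
  rw [mul_inv, mul_mul_mul_comm, Finset.sum_mul_sum]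
  congr 1
  refine Finset.sum_congr rfl fun a _ => Finset.sum_congr rfl fun b _ => ?_
  simp only [Prod.fst_inv, Prod.snd_inv]
  ring

theorem ten_irr {θ : G → ℂ} {ψ : H → ℂ} (h1 : IsIrrChar θ) (h2 : IsIrrChar ψ) :
    IsIrrChar (ten θ ψ) := by
  obtain ⟨V, _, _, _, ρ, _, e1⟩ := id h1
  obtain ⟨W, _, _, _, σ, _, e2⟩ := id h2
  have e : ten θ ψ = (Representation.tprod (ρ.comp (MonoidHom.fst G H))
      (σ.comp (MonoidHom.snd G H))).character := by
    rw [char_tensor, e1, e2]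
    rfl
  refine irr_of_norm ?_ ?_ ?_ ?_
  · rw [e]
    exact isClass_char _
  · intro χ hχ
    obtain ⟨U, _, _, _, τ, _, rfl⟩ := hχ
    obtain ⟨n, hn⟩ := B_nat (Representation.tprod (ρ.comp (MonoidHom.fst G H))
      (σ.comp (MonoidHom.snd G H))) τ
    rw [e, hn]
    exact ⟨n, by norm_cast⟩
  · rw [B_ten, B_irr h1 h1, B_irr h2 h2, if_pos rfl, if_pos rfl, one_mul]
  · obtain ⟨m, -, hm⟩ := deg_pos h1
    obtain ⟨n, -, hn⟩ := deg_pos h2
    refine ⟨m * n, ?_⟩
    change θ 1 * ψ 1 = _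
    rw [hm, hn]
    push_cast
    ring

theorem ten_cover {χ : G × H → ℂ} (hχ : IsIrrChar χ) :
    ∃ (θ : G → ℂ) (ψ : H → ℂ), IsIrrChar θ ∧ IsIrrChar ψ ∧ χ = ten θ ψ := by
  by_contra hcon
  push Not at hcon
  have hcl : IsClass χ := by
    obtain ⟨U, _, _, _, τ, _, rfl⟩ := hχ
    exact isClass_char _
  have hz : ∀ (θ : G → ℂ) (ψ : H → ℂ), IsIrrChar θ → IsIrrChar ψ → B χ (ten θ ψ) = 0 :=
    fun θ ψ h1 h2 => by rw [B_irr hχ (ten_irr h1 h2), if_neg (hcon θ ψ h1 h2)]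
  have h1 : ∀ ψ : H → ℂ, IsIrrChar ψ → (fun a : G => ∑ b : H, χ (a, b) * ψ b⁻¹) = 0 := by
    intro ψ hψ
    apply class_eq_zero
    · intro g y
      refine Finset.sum_congr rfl fun b _ => ?_
      have := hcl (g, b) (y, 1)
      simp only [Prod.mk_mul_mk, Prod.inv_mk, inv_one, one_mul, mul_one] at this
      rw [this]
    · intro θ hθ
      have h2 := hz θ ψ hθ hψ
      unfold B at h2 ⊢
      rw [Fintype.sum_prod_type] at h2
      rcases mul_eq_zero.1 h2 with h3 | h3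
      · exact absurd h3 (inv_ne_zero cardG_ne)
      · refine mul_eq_zero.2 (Or.inr ?_)
        rw [← h3]
        refine Finset.sum_congr rfl fun a _ => ?_
        rw [Finset.sum_mul]
        refine Finset.sum_congr rfl fun b _ => ?_
        simp only [ten, Prod.fst_inv, Prod.snd_inv]
        ring
  have h2 : χ = 0 := by
    funext x
    obtain ⟨a, b⟩ := x
    have h3 : (fun b : H => χ (a, b)) = 0 := by
      apply class_eq_zero
      · intro g y
        have := hcl (a, g) (1, y)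
        simp only [Prod.mk_mul_mk, Prod.inv_mk, inv_one, one_mul, mul_one] at this
        exact this
      · intro ψ hψ
        have h4 := congrFun (h1 ψ hψ) a
        simp only [Pi.zero_apply] at h4
        unfold B
        rw [h4, mul_zero]
    exact congrFun h3 b
  have h3 := B_irr hχ hχ
  rw [if_pos rfl, h2] at h3
  simp [B] at h3

theorem ten_inj {θ θ' : G → ℂ} {ψ ψ' : H → ℂ} (h1 : IsIrrChar θ) (h2 : IsIrrChar ψ)
    (h3 : IsIrrChar θ') (h4 : IsIrrChar ψ') (h : ten θ ψ = ten θ' ψ') : θ = θ' ∧ ψ = ψ' := by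
  have e := B_ten θ θ' ψ ψ'
  rw [← h, B_irr (ten_irr h1 h2) (ten_irr h1 h2), if_pos rfl, B_irr h1 h3, B_irr h2 h4] at e
  by_cases c1 : θ = θ'
  · by_cases c2 : ψ = ψ'
    · exact ⟨c1, c2⟩
    · rw [if_neg c2, mul_zero] at e
      exact absurd e one_ne_zero
  · rw [if_neg c1, zero_mul] at e
    exact absurd e one_ne_zero

/-- counting the irreducible characters of a direct product -/
theorem card_prod {ι : Type} (I : Finset ι) (R : (G × H → ℂ) → Prop) (A : ι → (G → ℂ) → Prop)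
    (C : ι → (H → ℂ) → Prop)
    (hR : ∀ θ ψ, IsIrrChar θ → IsIrrChar ψ → (R (ten θ ψ) ↔ ∃ i ∈ I, A i θ ∧ C i ψ))
    (hd : ∀ θ ψ, ∀ i ∈ I, ∀ j ∈ I, A i θ → C i ψ → A j θ → C j ψ → i = j) :
    Nat.card {χ : G × H → ℂ // IsIrrChar χ ∧ R χ} =
      ∑ i ∈ I, Nat.card {θ : G → ℂ // IsIrrChar θ ∧ A i θ} *
        Nat.card {ψ : H → ℂ // IsIrrChar ψ ∧ C i ψ} := by
  rw [card_filter_eq]
  simp_rw [card_filter_eq, ← Finset.card_product, ← Finset.card_sigma]
  symm
  refine Finset.card_bij (fun a _ => ten a.2.1 a.2.2) ?_ ?_ ?_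
  · rintro ⟨i, θ, ψ⟩ h
    simp only [Finset.mem_sigma, Finset.mem_product, Finset.mem_filter, mem_Irr] at h ⊢
    obtain ⟨hi, ⟨h1, h2⟩, h3, h4⟩ := h
    exact ⟨ten_irr h1 h3, (hR θ ψ h1 h3).2 ⟨i, hi, h2, h4⟩⟩
  · rintro ⟨i, θ, ψ⟩ h ⟨i', θ', ψ'⟩ h' e
    simp only [Finset.mem_sigma, Finset.mem_product, Finset.mem_filter, mem_Irr] at h h'
    obtain ⟨hi, ⟨h1, h2⟩, h3, h4⟩ := h
    obtain ⟨hi', ⟨h1', h2'⟩, h3', h4'⟩ := h'
    obtain ⟨rfl, rfl⟩ := ten_inj h1 h3 h1' h3' e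
    obtain rfl := hd θ ψ i hi i' hi' h2 h4 h2' h4'
    rfl
  · intro χ hχ
    simp only [Finset.mem_filter, mem_Irr] at hχ
    obtain ⟨θ, ψ, h1, h2, rfl⟩ := ten_cover hχ.1
    obtain ⟨i, hi, h3, h4⟩ := (hR θ ψ h1 h2).1 hχ.2
    refine ⟨⟨i, θ, ψ⟩, ?_, rfl⟩
    simp only [Finset.mem_sigma, Finset.mem_product, Finset.mem_filter, mem_Irr]
    exact ⟨hi, ⟨h1, h3⟩, h2, h4⟩

end prod

section lam

variable {F : Type} [Field F] (red : integralClosure ℤ ℂ →+* F)

/-- The value at the sum of the conjugacy class of `g ∈ G` of the reduction modulo `p` of the central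
character of `ϑ`, a character of `J`, where `φ` maps `J` into `G`: the number
`(∑_x ϑ(x)) / ϑ(1)`, sum over the `x ∈ J` with `φ x` conjugate to `g` in `G`, reduced by `red`. -/
def lam {J G : Type} [Group J] [Group G] (φ : J →* G) (ϑ : J → ℂ) (g : G) : F :=
  redC red ((∑ᶠ x : {x : J // IsConj g (φ x)}, ϑ x.1) / ϑ 1)

variable {J J' G G' : Type} [Group J] [Group J'] [Group G] [Group G']

/-- the indicator function -/
def indi (φ : J →* G) (g : G) (x : J) : ℤ := if IsConj g (φ x) then 1 else 0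

theorem indi_Cf (φ : J →* G) (g : G) : Cf (indi φ g) := by
  intro y x
  unfold indi
  refine if_congr ?_ rfl rfl
  have : IsConj (φ x) (φ (y * x * y⁻¹)) := isConj_iff.2 ⟨φ y, by simp⟩
  exact ⟨fun h => h.trans this.symm, fun h => h.trans this⟩

theorem lam_eq [Fintype J] (φ : J →* G) (ϑ : J → ℂ) (g : G) :
    lam red φ ϑ g = redC red (om ϑ (fun x => (indi φ g x : ℂ))) := by
  unfold lam om
  congr 2
  rw [finsum_eq_sum_of_fintype]
  have h1 : ∀ x : J, (indi φ g x : ℂ) * ϑ x = if IsConj g (φ x) then ϑ x else 0 := by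
    intro x
    unfold indi
    split_ifs <;> simp
  simp_rw [h1]
  rw [← Finset.sum_filter, Finset.sum_subtype (p := fun x => IsConj g (φ x)) _ (by simp)]

theorem lam_congr (e : J ≃* J') (φ : J →* G) (φ' : J' →* G) (h : ∀ x, IsConj (φ x) (φ' (e x)))
    (χ : J' → ℂ) (g : G) : lam red φ (fun x => χ (e x)) g = lam red φ' χ g := by
  unfold lam
  have h1 : (fun x => χ (e x)) 1 = χ 1 := by
    simp only [map_one]
  rw [h1]
  congr 2
  refine finsum_eq_of_bijective (fun x => ⟨e x.1, x.2.trans (h x.1)⟩) ?_ (fun x => rfl)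
  constructor
  · intro x y hxy
    exact Subtype.ext (e.injective (congrArg Subtype.val hxy))
  · rintro ⟨y, hy⟩
    refine ⟨⟨e.symm y, ?_⟩, Subtype.ext (e.apply_symm_apply y)⟩
    have := h (e.symm y)
    rw [e.apply_symm_apply] at this
    exact hy.trans this.symm

theorem lam_one {ϑ : J → ℂ} (hϑ : ϑ 1 ≠ 0) {φ : J →* G} (hφ : Function.Injective φ) :
    lam red φ ϑ 1 = 1 := by
  unfold lam
  have h1 : ∑ᶠ x : {x : J // IsConj (1 : G) (φ x)}, ϑ x.1 = ϑ 1 := by
    have h2 : ∀ x : {x : J // IsConj (1 : G) (φ x)}, x.1 = 1 := by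
      rintro ⟨x, hx⟩
      exact hφ ((isConj_one_right.1 hx).trans (map_one φ).symm)
    let _ : Unique {x : J // IsConj (1 : G) (φ x)} :=
      { default := ⟨1, by rw [map_one]⟩
        uniq := fun x => Subtype.ext (h2 x) }
    rw [finsum_unique]
    congr 1
  rw [h1, div_self hϑ, redC_one]

theorem isConj_prod {a b : G} {c d : G'} : IsConj (a, c) (b, d) ↔ IsConj a b ∧ IsConj c d := by
  simp only [isConj_iff, Prod.exists, Prod.mk_mul_mk, Prod.inv_mk, Prod.mk.injEq]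
  constructor
  · rintro ⟨x, y, h1, h2⟩
    exact ⟨⟨x, h1⟩, y, h2⟩
  · rintro ⟨⟨x, h1⟩, y, h2⟩
    exact ⟨x, y, h1, h2⟩

theorem lam_ten [Fintype J] [Fintype J'] {θ : J → ℂ} {ψ : J' → ℂ} (h1 : IsIrrChar θ)
    (h2 : IsIrrChar ψ) (φ : J →* G) (φ' : J' →* G') (g : G) (g' : G') :
    lam red (φ.prodMap φ') (ten θ ψ) (g, g') = lam red φ θ g * lam red φ' ψ g' := by
  rw [lam_eq, lam_eq, lam_eq, ← redC_mul red (om_int h1 (indi_Cf φ g)) (om_int h2 (indi_Cf φ' g'))]
  congr 1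
  unfold om ten
  rw [Fintype.sum_prod_type, div_mul_div_comm, Finset.sum_mul_sum]
  congr 1
  refine Finset.sum_congr rfl fun a _ => Finset.sum_congr rfl fun b _ => ?_
  have h3 : indi (φ.prodMap φ') (g, g') (a, b) = indi φ g a * indi φ' g' b := by
    unfold indi
    have h4 : IsConj (g, g') ((φ.prodMap φ') (a, b)) ↔ IsConj g (φ a) ∧ IsConj g' (φ' b) :=
      isConj_prod
    by_cases c1 : IsConj g (φ a)
    · by_cases c2 : IsConj g' (φ' b)
      · rw [if_pos (h4.2 ⟨c1, c2⟩), if_pos c1, if_pos c2, mul_one]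
      · rw [if_neg (fun h => c2 (h4.1 h).2), if_neg c2, mul_zero]
    · rw [if_neg (fun h => c1 (h4.1 h).1), if_neg c1, zero_mul]
  simp only [h3]
  push_cast
  ring

/-- `bl(ϑ)^G = bl(χ)` for `ϑ ∈ Irr(H)`, `χ ∈ Irr(G)` -/
def Induces (χ : G → ℂ) {H : Subgroup G} (ϑ : H → ℂ) : Prop :=
  ∀ g : G, lam red H.subtype ϑ g = lam red (MonoidHom.id G) χ g

theorem irr_one_ne' [Finite J] {χ : J → ℂ} (h : IsIrrChar χ) : χ 1 ≠ 0 := by
  have := Fintype.ofFinite J
  obtain ⟨n, hn, e⟩ := deg_pos h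
  rw [e]
  exact_mod_cast hn.ne'

theorem induces_ten [Finite G] [Finite G'] {χ : G → ℂ} {χ' : G' → ℂ} (hχ : IsIrrChar χ)
    (hχ' : IsIrrChar χ') {H : Subgroup G} {K : Subgroup G'} {θ : H → ℂ} {ψ : K → ℂ}
    (h1 : IsIrrChar θ) (h2 : IsIrrChar ψ) :
    Induces red (ten χ χ') (H := H.prod K) (fun x => ten θ ψ (Subgroup.prodEquiv H K x)) ↔
      Induces red χ θ ∧ Induces red χ' ψ := by
  have := Fintype.ofFinite G
  have := Fintype.ofFinite G'
  have := Fintype.ofFinite H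
  have := Fintype.ofFinite K
  have e1 : ∀ (g : G) (g' : G'), lam red (H.prod K).subtype
      (fun x => ten θ ψ (Subgroup.prodEquiv H K x)) (g, g') =
        lam red H.subtype θ g * lam red K.subtype ψ g' := by
    intro g g'
    rw [lam_congr red (Subgroup.prodEquiv H K) (H.prod K).subtype (H.subtype.prodMap K.subtype)
      (fun x => IsConj.refl _) (ten θ ψ), lam_ten red h1 h2]
  have e2 : ∀ (g : G) (g' : G'), lam red (MonoidHom.id (G × G')) (ten χ χ') (g, g') =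
      lam red (MonoidHom.id G) χ g * lam red (MonoidHom.id G') χ' g' := by
    intro g g'
    exact lam_ten red hχ hχ' (MonoidHom.id G) (MonoidHom.id G') g g'
  have i1 := lam_one red (irr_one_ne' h1) (φ := H.subtype) H.subtype_injective
  have i2 := lam_one red (irr_one_ne' h2) (φ := K.subtype) K.subtype_injective
  have i3 := lam_one red (irr_one_ne' hχ) (φ := MonoidHom.id G) Function.injective_id
  have i4 := lam_one red (irr_one_ne' hχ') (φ := MonoidHom.id G') Function.injective_id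
  constructor
  · intro h
    refine ⟨fun g => ?_, fun g' => ?_⟩
    · have := h (g, 1)
      rwa [e1, e2, i2, i4, mul_one, mul_one] at this
    · have := h (1, g')
      rwa [e1, e2, i1, i3, one_mul, one_mul] at this
  · rintro ⟨h, h'⟩ ⟨g, g'⟩
    rw [e1, e2, h g, h' g']

/-- the number of the `ϑ ∈ Irr(H)` with `bl(ϑ)^G = bl(χ)` and the property `Q` -/
def num (χ : G → ℂ) (Q : ∀ H : Subgroup G, (H → ℂ) → Prop) (H : Subgroup G) : ℤ :=
  Nat.card {ϑ : H → ℂ // IsIrrChar ϑ ∧ Induces red χ ϑ ∧ Q H ϑ}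

/-- conjugation of a subgroup -/
def cj (g : G) (H : Subgroup G) : H ≃* conjSub g H :=
  Subgroup.equivMapOfInjective H (MulAut.conj g).toMonoidHom (MulAut.conj g).injective

theorem cj_apply (g : G) (H : Subgroup G) (x : H) : (cj g H x : G) = g * x.1 * g⁻¹ := rfl

theorem num_conj (χ : G → ℂ) {Q : ∀ H : Subgroup G, (H → ℂ) → Prop}
    (hQ : ∀ (g : G) (H : Subgroup G) (ϑ : conjSub g H → ℂ),
      Q H (fun x => ϑ (cj g H x)) ↔ Q (conjSub g H) ϑ) : ConjInv (num red χ Q) := by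
  intro g H
  unfold num
  rw [card_transport (cj g H)]
  congr 1
  refine Nat.card_congr (Equiv.subtypeEquivRight fun ϑ => and_congr_right fun _ =>
    and_congr ?_ (hQ g H ϑ).symm)
  unfold Induces
  refine forall_congr' fun y => ?_
  rw [lam_congr red (cj g H) H.subtype (conjSub g H).subtype]
  intro x
  exact isConj_iff.2 ⟨g, rfl⟩

/-- **Numbers of characters of direct products.** -/
theorem num_prod [Finite G] [Finite G'] {χ : G → ℂ} {χ' : G' → ℂ} (hχ : IsIrrChar χ)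
    (hχ' : IsIrrChar χ') {ι : Type} (I : Finset ι)
    (Q : ∀ H : Subgroup (G × G'), (H → ℂ) → Prop)
    (A : ι → ∀ H : Subgroup G, (H → ℂ) → Prop) (C : ι → ∀ H : Subgroup G', (H → ℂ) → Prop)
    (H : Subgroup G) (K : Subgroup G')
    (hR : ∀ (θ : H → ℂ) (ψ : K → ℂ), IsIrrChar θ → IsIrrChar ψ →
      (Q (H.prod K) (fun x => ten θ ψ (Subgroup.prodEquiv H K x)) ↔ ∃ i ∈ I, A i H θ ∧ C i K ψ))
    (hd : ∀ (θ : H → ℂ) (ψ : K → ℂ), ∀ i ∈ I, ∀ j ∈ I, A i H θ → C i K ψ → A j H θ → C j K ψ →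
      i = j) :
    num red (ten χ χ') Q (H.prod K) = ∑ i ∈ I, num red χ (A i) H * num red χ' (C i) K := by
  have := Fintype.ofFinite G
  have := Fintype.ofFinite G'
  have := Fintype.ofFinite H
  have := Fintype.ofFinite K
  unfold num
  rw [card_transport (Subgroup.prodEquiv H K)]
  rw [card_prod I _ (fun i θ => Induces red χ θ ∧ A i H θ) (fun i ψ => Induces red χ' ψ ∧ C i K ψ)]
  · push_cast
    rfl
  · intro θ ψ h1 h2
    rw [induces_ten red hχ hχ' h1 h2, hR θ ψ h1 h2]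
    constructor
    · rintro ⟨⟨a, b⟩, i, hi, c, d⟩
      exact ⟨i, hi, ⟨a, c⟩, b, d⟩
    · rintro ⟨i, hi, ⟨a, c⟩, b, d⟩
      exact ⟨⟨a, b⟩, i, hi, c, d⟩
  · intro θ ψ i hi j hj h1 h2 h3 h4
    exact hd θ ψ i hi j hj h1.2 h2.2 h3.2 h4.2

end lam

end Pool.Agent.Q99.AS
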