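import Pool.Agent.Q99.AS.Char

/-!
# Powers of blocks
-/

set_option autoImplicit false

open scoped Classical

noncomputable section

namespace Pool.Agent.Q99.AS

open Pool.Agent.Helper884.IC
open Pool.Agent.Q90.WR (deg_pos)

/-- a set of pairs (order, value) closed under squares and bounded by a small power of the order -/
theorem unit_of_subpoly {P : ℕ → ℤ → Prop} (hpos : ∀ n s, P n s → 1 ≤ n)
    (hsq : ∀ n s, P n s → P (n * n) (s * s))
    (hb : ∀ ε : ℝ, 0 < ε → ∃ C : ℝ, ∀ n s, P n s → (s : ℝ) ≤ C * (n : ℝ) ^ ε) :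
    ∀ n s, P n s → |s| ≤ 1 := by
  intro n s hP
  by_contra hs
  have hs2 : (2 : ℤ) ≤ |s| := by omega
  have hn : (1 : ℝ) ≤ n := by exact_mod_cast hpos n s hP
  have hn0 : (0 : ℝ) < n := by linarith
  -- powers
  have hpow : ∀ k : ℕ, P (n ^ 2 ^ (k + 1)) (s ^ 2 ^ (k + 1)) := by
    intro k
    induction k with
    | zero =>
      have := hsq n s hP
      rwa [← pow_two, ← pow_two] at this
    | succ k ih =>
      have := hsq _ _ ih
      rwa [← pow_two, ← pow_two, ← pow_mul, ← pow_mul, ← pow_succ] at this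
  obtain ⟨ε, hε, hε2⟩ : ∃ ε : ℝ, 0 < ε ∧ (n : ℝ) ^ ε ≤ 3 / 2 := by
    by_cases h1 : Real.log n = 0
    · refine ⟨1, one_pos, ?_⟩
      rw [Real.rpow_def_of_pos hn0, h1]
      norm_num
    · have h2 : 0 < Real.log n := lt_of_le_of_ne (Real.log_nonneg hn) (Ne.symm h1)
      have h3 : 0 < Real.log (3 / 2) := Real.log_pos (by norm_num)
      refine ⟨Real.log (3 / 2) / Real.log n, div_pos h3 h2, ?_⟩
      rw [Real.rpow_def_of_pos hn0, mul_div_cancel₀ _ h1, Real.exp_log (by norm_num)]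
  obtain ⟨C, hC⟩ := hb ε hε
  have key : ∀ k : ℕ, ((4 : ℝ) / 3) ^ 2 ^ (k + 1) ≤ C := by
    intro k
    have h1 := hC _ _ (hpow k)
    have h2 : ((2 : ℝ)) ^ 2 ^ (k + 1) ≤ ((s ^ 2 ^ (k + 1) : ℤ) : ℝ) := by
      have h3 : ((s ^ 2 ^ (k + 1) : ℤ) : ℝ) = ((|s| : ℤ) : ℝ) ^ 2 ^ (k + 1) := by
        have h4 : (|s|) ^ 2 ^ (k + 1) = s ^ 2 ^ (k + 1) := by
          rw [Even.pow_abs]
          exact ⟨2 ^ k, by ring⟩
        rw [← h4]
        push_cast
        rfl
      rw [h3]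
      apply pow_le_pow_left₀ (by norm_num)
      exact_mod_cast hs2
    have h5 : (((n ^ 2 ^ (k + 1) : ℕ) : ℝ)) ^ ε = ((n : ℝ) ^ ε) ^ 2 ^ (k + 1) := by
      push_cast
      rw [← Real.rpow_natCast ((n : ℝ) ^ ε), ← Real.rpow_mul hn0.le, mul_comm ε,
        Real.rpow_mul hn0.le, Real.rpow_natCast]
    rw [h5] at h1
    have hC0 : 0 ≤ C := by
      by_contra hneg
      push Not at hneg
      have h6 : 0 < ((n : ℝ) ^ ε) ^ 2 ^ (k + 1) := pow_pos (Real.rpow_pos_of_pos hn0 _) _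
      have h7 : C * ((n : ℝ) ^ ε) ^ 2 ^ (k + 1) < 0 := mul_neg_of_neg_of_pos hneg h6
      have h8 : (0 : ℝ) < 2 ^ 2 ^ (k + 1) := by positivity
      linarith
    have h6 : ((n : ℝ) ^ ε) ^ 2 ^ (k + 1) ≤ (3 / 2 : ℝ) ^ 2 ^ (k + 1) :=
      pow_le_pow_left₀ (Real.rpow_nonneg hn0.le _) hε2 _
    have h7 : (2 : ℝ) ^ 2 ^ (k + 1) ≤ C * (3 / 2 : ℝ) ^ 2 ^ (k + 1) :=
      h2.trans (h1.trans (mul_le_mul_of_nonneg_left h6 hC0))
    have h8 : ((4 : ℝ) / 3) ^ 2 ^ (k + 1) * (3 / 2 : ℝ) ^ 2 ^ (k + 1) = 2 ^ 2 ^ (k + 1) := by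
      rw [← mul_pow]
      norm_num
    have h9 : (0 : ℝ) < (3 / 2 : ℝ) ^ 2 ^ (k + 1) := by positivity
    rw [← h8] at h7
    exact le_of_mul_le_mul_right h7 h9
  obtain ⟨m, hm⟩ := pow_unbounded_of_one_lt C (by norm_num : (1 : ℝ) < 4 / 3)
  have h1 : ((4 : ℝ) / 3) ^ m ≤ (4 / 3) ^ 2 ^ (m + 1) := by
    apply pow_le_pow_right₀ (by norm_num)
    have := Nat.lt_two_pow_self (n := m + 1)
    omega
  linarith [key m]

variable {G G' : Type} [Group G] [Group G']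

/-- `O` is the largest normal `p`-subgroup of `G`. -/
structure IsCore (p : ℕ) (O : Subgroup G) : Prop where
  normal : O.Normal
  isPGroup : IsPGroup p O
  largest : ∀ N : Subgroup G, N.Normal → IsPGroup p N → N ≤ O

/-- `|O|_p χ(1)_p < |G|_p` -/
def Big (p : ℕ) (O : Subgroup G) (χ : G → ℂ) : Prop :=
  ∃ n : ℕ, χ 1 = n ∧
    n.factorization p + (Nat.card O).factorization p < (Nat.card G).factorization p

theorem IsCore.prod {p : ℕ} [Fact p.Prime] [Finite G] [Finite G'] {O : Subgroup G}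
    {O' : Subgroup G'} (h : IsCore p O) (h' : IsCore p O') : IsCore p (O.prod O') := by
  have := h.normal
  have := h'.normal
  refine ⟨Subgroup.prod_normal O O', isPGroup_prod h.isPGroup h'.isPGroup, fun N hN hp => ?_⟩
  rw [le_prod]
  refine ⟨h.largest _ (hN.map _ ?_) (hp.map _), h'.largest _ (hN.map _ ?_) (hp.map _)⟩
  · exact fun x => ⟨(x, 1), rfl⟩
  · exact fun x => ⟨(1, x), rfl⟩

theorem center_prod {O : Subgroup G} {O' : Subgroup G'} (h : O ≤ Subgroup.center G)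
    (h' : O' ≤ Subgroup.center G') : O.prod O' ≤ Subgroup.center (G × G') := by
  rintro ⟨x, y⟩ hxy
  rw [Subgroup.mem_prod] at hxy
  rw [Subgroup.mem_center_iff]
  rintro ⟨a, b⟩
  exact Prod.ext (Subgroup.mem_center_iff.1 (h hxy.1) a) (Subgroup.mem_center_iff.1 (h' hxy.2) b)

theorem card_prod' (O : Subgroup G) (O' : Subgroup G') :
    Nat.card (O.prod O') = Nat.card O * Nat.card O' := by
  rw [Nat.card_congr (Subgroup.prodEquiv O O').toEquiv, Nat.card_prod]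

theorem Big.prod {p : ℕ} [Finite G] [Finite G'] {O : Subgroup G}
    {O' : Subgroup G'} {χ : G → ℂ} {χ' : G' → ℂ} (hχ : IsIrrChar χ) (hχ' : IsIrrChar χ')
    (h : Big p O χ) (h' : Big p O' χ') : Big p (O.prod O') (ten χ χ') := by
  obtain ⟨n, hn, h1⟩ := h
  obtain ⟨m, hm, h2⟩ := h'
  have hn0 : n ≠ 0 := by
    rintro rfl
    exact irr_one_ne' hχ (by rw [hn]; simp)
  have hm0 : m ≠ 0 := by
    rintro rfl
    exact irr_one_ne' hχ' (by rw [hm]; simp)
  refine ⟨n * m, ?_, ?_⟩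
  · change χ 1 * χ' 1 = _
    rw [hn, hm]
    push_cast
    rfl
  · rw [card_prod', Nat.card_prod, Nat.factorization_mul hn0 hm0,
      Nat.factorization_mul Nat.card_pos.ne' Nat.card_pos.ne',
      Nat.factorization_mul Nat.card_pos.ne' Nat.card_pos.ne']
    simp only [Finsupp.add_apply]
    omega

end Pool.Agent.Q99.AS
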