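import Pool.Agent.Q99.AS.Pow

/-!
# Convolution squares of sequences
-/

set_option autoImplicit false

open scoped Classical

noncomputable section

namespace Pool.Agent.Q99.AS

/-- the convolution -/
def conv (f g : ℕ → ℤ) (d : ℕ) : ℤ := ∑ i ∈ Finset.HasAntidiagonal.antidiagonal d, f i.1 * g i.2

theorem zero_of_nonpos {P : (ℕ → ℤ) → Prop} (hsq : ∀ f, P f → P (conv f f))
    (h : ∀ f, P f → ∀ d, f d ≤ 0) : ∀ f, P f → ∀ d, f d = 0 := by
  intro f hf
  by_contra hne
  push Not at hne
  obtain ⟨d, hd, hmin⟩ : ∃ d, f d ≠ 0 ∧ ∀ e, e < d → f e = 0 := by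
    refine ⟨Nat.find hne, Nat.find_spec hne, fun e he => ?_⟩
    by_contra h1
    exact Nat.find_min hne he h1
  have h1 := h _ (hsq f hf) (2 * d)
  have h2 : conv f f (2 * d) = f d * f d := by
    unfold conv
    rw [Finset.sum_eq_single (d, d)]
    · rintro ⟨i, j⟩ hij hne'
      rw [Finset.HasAntidiagonal.mem_antidiagonal] at hij
      simp only at hij ⊢
      rcases lt_trichotomy i d with h3 | h3 | h3
      · rw [hmin i h3, zero_mul]
      · exact absurd (Prod.ext h3 (by simp only; omega)) hne'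
      · rw [hmin j (by omega), mul_zero]
    · intro h3
      rw [Finset.HasAntidiagonal.mem_antidiagonal] at h3
      exact absurd (by simp only; omega) h3
  rw [h2] at h1
  exact hd (mul_self_eq_zero.1 (le_antisymm h1 (mul_self_nonneg _)))

/-- `z` if `P` holds, `0` otherwise -/
def ite' (P : Prop) (z : ℤ) : ℤ := if P then z else 0

theorem ite'_congr {P Q : Prop} (h : P ↔ Q) (z : ℤ) : ite' P z = ite' Q z := by
  rw [propext h]

/-- the fibre of a map -/
def fib {X T : Type} (S : Finset X) (m : X → T) (t : T) : Finset X := S.filter fun x => m x = t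

theorem mem_fib {X T : Type} {S : Finset X} {m : X → T} {t : T} {x : X} :
    x ∈ fib S m t ↔ x ∈ S ∧ m x = t := Finset.mem_filter

/-- sums of squares over the fibres of a map -/
theorem sum_fibre_sq {X T : Type} (S : Finset X) (U : Finset T) (m : X → T)
    (hm : ∀ x ∈ S, m x ∈ U) (a : X → ℤ) :
    ∑ t ∈ U, (∑ x ∈ fib S m t, a x) ^ 2 =
      ∑ x ∈ S, ∑ y ∈ S, ite' (m x = m y) (a x * a y) := by
  have h1 : ∀ t ∈ U, (∑ x ∈ fib S m t, a x) ^ 2 =
      ∑ x ∈ fib S m t, ∑ y ∈ S, ite' (m x = m y) (a x * a y) := by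
    intro t _
    rw [pow_two, Finset.sum_mul_sum]
    refine Finset.sum_congr rfl fun x hx => ?_
    unfold fib
    rw [Finset.sum_filter]
    refine Finset.sum_congr rfl fun y _ => ?_
    rw [(mem_fib.1 hx).2]
    unfold ite'
    exact if_congr eq_comm rfl rfl
  rw [Finset.sum_congr rfl h1]
  exact Finset.sum_fiberwise_of_maps_to hm _

/-- the energy of the convolution square -/
theorem energy_conv (f : ℕ → ℤ) (M : ℕ) (hf : ∀ d, M < d → f d = 0) :
    (∑ d ∈ Finset.range (M + 1), f d ^ 2) ^ 2 ≤ ∑ d ∈ Finset.range (2 * M + 1), conv f f d ^ 2 := by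
  let Q := Finset.range (M + 1)
  let S : Finset (ℕ × ℕ) := Q ×ˢ Q
  have hS : ∀ x : ℕ × ℕ, x ∈ S ↔ x.1 < M + 1 ∧ x.2 < M + 1 := by
    intro x
    simp [S, Q, Finset.mem_product]
  let a : ℕ × ℕ → ℤ := fun x => f x.1 * f x.2
  -- the left count
  have h1 : ∑ d ∈ Finset.range (2 * M + 1), conv f f d ^ 2 =
      ∑ x ∈ S, ∑ y ∈ S, ite' (x.1 + x.2 = y.1 + y.2) (a x * a y) := by
    rw [← sum_fibre_sq S (Finset.range (2 * M + 1)) (fun x => x.1 + x.2) (by
      intro x hx
      rw [hS] at hx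
      rw [Finset.mem_range]
      omega) a]
    refine Finset.sum_congr rfl fun d _ => ?_
    congr 1
    unfold conv
    symm
    refine Finset.sum_subset ?_ ?_
    · intro x hx
      rw [Finset.HasAntidiagonal.mem_antidiagonal]
      exact (mem_fib.1 hx).2
    · intro x hx hx'
      rw [Finset.HasAntidiagonal.mem_antidiagonal] at hx
      rw [mem_fib, hS, not_and_or, not_and_or] at hx'
      rcases hx' with (h2 | h2) | h2
      · change f x.1 * f x.2 = 0
        rw [hf x.1 (by omega), zero_mul]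
      · change f x.1 * f x.2 = 0
        rw [hf x.2 (by omega), mul_zero]
      · exact absurd hx h2
  -- swapping coordinates
  have h2 : ∑ x ∈ S, ∑ y ∈ S, ite' (x.1 + x.2 = y.1 + y.2) (a x * a y) =
      ∑ x ∈ S, ∑ y ∈ S, ite' ((x.1 : ℤ) - x.2 = (y.1 : ℤ) - y.2) (a x * a y) := by
    simp only [S]
    simp_rw [Finset.sum_product]
    -- i, j ; i', j'
    refine Finset.sum_congr rfl fun i _ => ?_
    rw [Finset.sum_comm]
    refine Finset.sum_congr rfl fun i' _ => ?_
    rw [Finset.sum_comm]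
    refine Finset.sum_congr rfl fun j' _ => Finset.sum_congr rfl fun j _ => ?_
    simp only [a]
    unfold ite'
    by_cases h : i + j = i' + j'
    · rw [if_pos h, if_pos (by omega)]
      ring
    · rw [if_neg h, if_neg (by omega)]
  rw [h1, h2, ← sum_fibre_sq S (S.image (fun x => (x.1 : ℤ) - x.2)) (fun x => (x.1 : ℤ) - x.2)
    (fun x hx => Finset.mem_image_of_mem _ hx) a]
  have h0 : (0 : ℤ) ∈ S.image (fun x => (x.1 : ℤ) - x.2) := by
    rw [Finset.mem_image]
    exact ⟨(0, 0), (hS _).2 ⟨by simp, by simp⟩, by simp⟩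
  have h3 : ∑ x ∈ fib S (fun x => (x.1 : ℤ) - x.2) 0, a x =
      ∑ d ∈ Finset.range (M + 1), f d ^ 2 := by
    symm
    refine Finset.sum_bij (fun d _ => (d, d)) ?_ ?_ ?_ ?_
    · intro d hd
      rw [Finset.mem_range] at hd
      rw [mem_fib, hS]
      exact ⟨⟨hd, hd⟩, by simp⟩
    · intro d _ e _ h
      exact congrArg Prod.fst h
    · rintro ⟨i, j⟩ h
      rw [mem_fib, hS] at h
      simp only at h
      have : i = j := by omega
      subst this
      exact ⟨i, Finset.mem_range.2 h.1.1, rfl⟩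
    · intro d _
      simp only [a]
      ring
  rw [← h3]
  exact Finset.single_le_sum (f := fun t => (∑ x ∈ fib S (fun x => (x.1 : ℤ) - x.2) t, a x) ^ 2)
    (fun t _ => sq_nonneg _) h0

/-- a lower bound from an upper bound -/
theorem abs_le_of_conv (f : ℕ → ℤ) (M : ℕ) (hf : ∀ d, M < d → f d = 0) {b : ℝ} (hb : 0 < b)
    (h1 : ∀ d, (f d : ℝ) ≤ b) (h2 : ∀ d, (conv f f d : ℝ) ≤ b ^ 2) :
    ∀ d, |(f d : ℝ)| ≤ (2 * M + 1) * b := by
  obtain ⟨d₀, hd₀, hmin⟩ := Finset.exists_min_image (Finset.range (M + 1)) f ⟨0, by simp⟩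
  have hM : d₀ ≤ M := by
    rw [Finset.mem_range] at hd₀
    omega
  have hbM : b ≤ (2 * M + 1) * b := by
    have : (0 : ℝ) ≤ M := Nat.cast_nonneg M
    nlinarith
  by_cases hpos : 0 ≤ f d₀
  · intro d
    have h3 : 0 ≤ f d := by
      by_cases hd : d ≤ M
      · exact hpos.trans (hmin d (Finset.mem_range.2 (by omega)))
      · rw [hf d (by omega)]
    rw [abs_of_nonneg (by exact_mod_cast h3)]
    exact (h1 d).trans hbM
  · push Not at hpos
    set L : ℝ := -(f d₀ : ℝ) with hL
    have hL0 : 0 < L := by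
      rw [hL]
      have : (f d₀ : ℝ) < 0 := by exact_mod_cast hpos
      linarith
    have hge : ∀ d, -L ≤ (f d : ℝ) := by
      intro d
      rw [hL, neg_neg]
      by_cases hd : d ≤ M
      · exact_mod_cast hmin d (Finset.mem_range.2 (by omega))
      · rw [hf d (by omega)]
        exact_mod_cast hpos.le
    have hterm : ∀ i j, -(L * b) ≤ (f i : ℝ) * f j := by
      intro i j
      have a1 := hge i
      have a2 := hge j
      have a3 := h1 i
      have a4 := h1 j
      rcases le_total 0 (f i : ℝ) with c1 | c1 <;> rcases le_total 0 (f j : ℝ) with c2 | c2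
      · have := mul_nonneg c1 c2
        have := mul_pos hL0 hb
        linarith
      · nlinarith
      · nlinarith
      · have := mul_nonneg_of_nonpos_of_nonpos c1 c2
        have := mul_pos hL0 hb
        linarith
    have h3 : L ^ 2 - (2 * M) * (L * b) ≤ (conv f f (2 * d₀) : ℝ) := by
      unfold conv
      push_cast
      have hmem : (d₀, d₀) ∈ Finset.HasAntidiagonal.antidiagonal (2 * d₀) := by
        rw [Finset.HasAntidiagonal.mem_antidiagonal]
        omega
      rw [← Finset.add_sum_erase _ _ hmem]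
      have h4 : ∑ x ∈ (Finset.HasAntidiagonal.antidiagonal (2 * d₀)).erase (d₀, d₀), (-(L * b)) ≤
          ∑ x ∈ (Finset.HasAntidiagonal.antidiagonal (2 * d₀)).erase (d₀, d₀), (f x.1 : ℝ) * f x.2 :=
        Finset.sum_le_sum fun x _ => hterm x.1 x.2
      rw [Finset.sum_const, Finset.card_erase_of_mem hmem, Finset.Nat.card_antidiagonal,
        nsmul_eq_mul] at h4
      have h5 : ((2 * d₀ + 1 - 1 : ℕ) : ℝ) = 2 * d₀ := by
        rw [Nat.add_sub_cancel]
        push_cast
        ring
      rw [h5] at h4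
      have h6 : (f d₀ : ℝ) * f d₀ = L ^ 2 := by
        rw [hL]
        ring
      simp only
      rw [h6]
      have h7 : (d₀ : ℝ) ≤ M := by exact_mod_cast hM
      have h8 := mul_pos hL0 hb
      nlinarith
    have h4 := h3.trans (h2 (2 * d₀))
    have hLle : L ≤ (2 * M + 1) * b := by
      by_contra hcon
      push Not at hcon
      have h5 : b < L := lt_of_le_of_lt hbM hcon
      have h6 : (0 : ℝ) ≤ M := Nat.cast_nonneg M
      have h7 : (2 * M + 1) * b * L < L * L := mul_lt_mul_of_pos_right hcon hL0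
      have h8 : b * b < b * L := mul_lt_mul_of_pos_left h5 hb
      nlinarith
    intro d
    rw [abs_le]
    constructor
    · linarith [hge d]
    · exact (h1 d).trans hbM

/-- one-sided subpolynomial bounds bound the energy -/
theorem energy_le {P : ℕ → (ℕ → ℤ) → Prop} (hpos : ∀ n f, P n f → 1 ≤ n)
    (hsupp : ∀ n f, P n f → ∀ d, Nat.log 2 n < d → f d = 0)
    (hsq : ∀ n f, P n f → P (n * n) (conv f f))
    (hb : ∀ ε : ℝ, 0 < ε → ∃ C : ℝ, ∀ n f, P n f → ∀ d, (f d : ℝ) ≤ C * (n : ℝ) ^ ε) :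
    ∀ n f, P n f → ∀ N, ∑ d ∈ Finset.range N, f d ^ 2 ≤ 1 := by
  have key := unit_of_subpoly (P := fun n s => ∃ f, P n f ∧ 0 ≤ s ∧
    s ≤ ∑ d ∈ Finset.range (Nat.log 2 n + 1), f d ^ 2) ?_ ?_ ?_
  · intro n f hP N
    have h1 := key n (∑ d ∈ Finset.range (Nat.log 2 n + 1), f d ^ 2)
      ⟨f, hP, Finset.sum_nonneg fun _ _ => sq_nonneg _, le_rfl⟩
    have h2 := (le_abs_self _).trans h1
    refine le_trans ?_ h2
    have h3 : ∑ d ∈ Finset.range N, f d ^ 2 ≤
        ∑ d ∈ Finset.range N ∪ Finset.range (Nat.log 2 n + 1), f d ^ 2 :=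
      Finset.sum_le_sum_of_subset_of_nonneg Finset.subset_union_left fun _ _ _ => sq_nonneg _
    refine h3.trans (le_of_eq ?_)
    symm
    refine Finset.sum_subset Finset.subset_union_right fun d _ hd => ?_
    rw [Finset.mem_range] at hd
    rw [hsupp n f hP d (by omega)]
    norm_num
  · rintro n s ⟨f, hP, -⟩
    exact hpos n f hP
  · rintro n s ⟨f, hP, h0, h1⟩
    refine ⟨conv f f, hsq n f hP, mul_self_nonneg s, ?_⟩
    have h2 := energy_conv f (Nat.log 2 n) (hsupp n f hP)
    have h3 : s * s ≤ (∑ d ∈ Finset.range (Nat.log 2 n + 1), f d ^ 2) ^ 2 := by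
      rw [← pow_two]
      exact pow_le_pow_left₀ h0 h1 2
    refine h3.trans (h2.trans ?_)
    refine Finset.sum_le_sum_of_subset_of_nonneg ?_ fun _ _ _ => sq_nonneg _
    rw [Finset.range_subset_range]
    have hn := hpos n f hP
    have h4 : 2 ^ Nat.log 2 n ≤ n := Nat.pow_log_le_self 2 (by omega)
    have h5 : 2 ^ (2 * Nat.log 2 n) ≤ n * n := by
      rw [two_mul, pow_add]
      exact Nat.mul_le_mul h4 h4
    have h6 : 2 * Nat.log 2 n ≤ Nat.log 2 (n * n) :=
      Nat.le_log_of_pow_le (by norm_num) h5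
    omega
  · intro ε hε
    set δ : ℝ := ε / 5 with hδ
    have hδ0 : 0 < δ := by positivity
    obtain ⟨C, hC⟩ := hb δ hδ0
    set D : ℝ := max C 1 with hD
    set E : ℝ := 1 / (δ * Real.log 2) + 1 with hE
    have hl2 : 0 < Real.log 2 := Real.log_pos (by norm_num)
    have hD1 : 1 ≤ D := le_max_right _ _
    have hE1 : 1 ≤ E := by
      have : 0 ≤ 1 / (δ * Real.log 2) := by positivity
      linarith
    refine ⟨E * (2 * E) ^ 2 * D ^ 2, ?_⟩
    rintro n s ⟨f, hP, -, hs⟩
    have hn : (1 : ℝ) ≤ n := by exact_mod_cast hpos n f hP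
    have hn0 : (0 : ℝ) < n := by linarith
    set M := Nat.log 2 n with hM
    set t : ℝ := (n : ℝ) ^ δ with ht
    have ht1 : 1 ≤ t := Real.one_le_rpow hn hδ0.le
    have hMt : (M : ℝ) + 1 ≤ E * t := by
      have h1 : (M : ℝ) ≤ Real.log n / Real.log 2 := by
        rw [le_div_iff₀ hl2, ← Real.log_rpow (by norm_num), Real.rpow_natCast]
        apply Real.log_le_log (by positivity)
        have := Nat.pow_log_le_self 2 (x := n) (by have := hpos n f hP; omega)
        exact_mod_cast this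
      have h2 : Real.log n ≤ t / δ := Real.log_le_rpow_div hn0.le hδ0
      have h3 : Real.log n / Real.log 2 ≤ 1 / (δ * Real.log 2) * t := by
        rw [div_le_iff₀ hl2]
        refine h2.trans (le_of_eq ?_)
        field_simp
      rw [hE]
      nlinarith
    set b : ℝ := D * t with hb'
    have hb0 : 0 < b := by positivity
    have h1 : ∀ d, (f d : ℝ) ≤ b := fun d =>
      (hC n f hP d).trans (mul_le_mul_of_nonneg_right (le_max_left _ _) (by positivity))
    have h2 : ∀ d, (conv f f d : ℝ) ≤ b ^ 2 := by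
      intro d
      have h3 := hC _ _ (hsq n f hP) d
      have h4 : (((n * n : ℕ) : ℝ)) ^ δ = t ^ 2 := by
        push_cast
        rw [Real.mul_rpow hn0.le hn0.le, ← pow_two]
      rw [h4] at h3
      refine h3.trans ?_
      rw [hb', mul_pow]
      apply mul_le_mul_of_nonneg_right _ (by positivity)
      have h5 : C ≤ D := le_max_left _ _
      nlinarith
    have h3 := abs_le_of_conv f M (hsupp n f hP) hb0 h1 h2
    have h4 : (s : ℝ) ≤ ((M : ℝ) + 1) * ((2 * M + 1) * b) ^ 2 := by
      have h5 : (s : ℝ) ≤ ∑ d ∈ Finset.range (M + 1), (f d : ℝ) ^ 2 := by exact_mod_cast hs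
      refine h5.trans ?_
      have h6 : ∑ d ∈ Finset.range (M + 1), (f d : ℝ) ^ 2 ≤
          ∑ d ∈ Finset.range (M + 1), ((2 * M + 1) * b) ^ 2 := by
        refine Finset.sum_le_sum fun d _ => ?_
        rw [← sq_abs]
        exact pow_le_pow_left₀ (abs_nonneg _) (h3 d) 2
      rw [Finset.sum_const, Finset.card_range, nsmul_eq_mul] at h6
      push_cast at h6
      exact h6
    have h5 : (2 * M + 1) * b ≤ (2 * E * t) * (D * t) := by
      apply mul_le_mul _ le_rfl hb0.le (by positivity)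
      linarith
    have h6 : (n : ℝ) ^ ε = t ^ 5 := by
      rw [ht, ← Real.rpow_natCast, ← Real.rpow_mul hn0.le, hδ]
      congr 1
      push_cast
      ring
    rw [h6]
    calc (s : ℝ) ≤ ((M : ℝ) + 1) * ((2 * M + 1) * b) ^ 2 := h4
      _ ≤ (E * t) * ((2 * E * t) * (D * t)) ^ 2 := by
          apply mul_le_mul hMt _ (by positivity) (by positivity)
          exact pow_le_pow_left₀ (by positivity) h5 2
      _ = E * (2 * E) ^ 2 * D ^ 2 * t ^ 5 := by ring

end Pool.Agent.Q99.AS
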