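import Pool.Agent.Q99.AS.Conv
import Pool.Agent.Y63.AWC.Deg

/-!
# Defects of characters, and Dade's alternating sums for direct products
-/

set_option autoImplicit false

open scoped Classical

noncomputable section

namespace Pool.Agent.Q99.AS

open Pool.Agent.Helper884.IC
open Pool.Agent.Q90.WR (deg_pos)
open Pool.Agent.Y63.KR (conjSub chainStabilizer)

/-- `ϑ` has `p`-defect `d`: `ϑ(1)_p p^d = |H|_p` -/
def Dft (p d : ℕ) {H : Type} [Group H] (ϑ : H → ℂ) : Prop :=
  ∃ n : ℕ, ϑ 1 = n ∧ n.factorization p + d = (Nat.card H).factorization p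

section dft

variable {p : ℕ} {H K : Type} [Group H] [Group K]

theorem Dft_unique {d e : ℕ} {ϑ : H → ℂ} (h : Dft p d ϑ) (h' : Dft p e ϑ) : d = e := by
  obtain ⟨n, h1, h2⟩ := h
  obtain ⟨m, h3, h4⟩ := h'
  rw [h1] at h3
  have : n = m := by exact_mod_cast h3
  subst this
  omega

theorem Dft_exists [Finite H] (p : ℕ) {ϑ : H → ℂ} (h : IsIrrChar ϑ) : ∃ d, Dft p d ϑ := by
  have := Fintype.ofFinite H
  obtain ⟨n, hn0, hn⟩ := deg_pos h
  have h1 : n ∣ Nat.card H := Pool.Agent.Y63.AWC.deg_dvd h hn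
  have h2 : n.factorization p ≤ (Nat.card H).factorization p :=
    (Nat.factorization_le_iff_dvd hn0.ne' Nat.card_pos.ne').2 h1 p
  exact ⟨(Nat.card H).factorization p - n.factorization p, n, hn, by omega⟩

theorem Dft_congr {d : ℕ} (e : H ≃* K) (ϑ : K → ℂ) : Dft p d (fun x => ϑ (e x)) ↔ Dft p d ϑ := by
  unfold Dft
  simp only [map_one, Nat.card_congr e.toEquiv]

theorem Dft_le {d : ℕ} {ϑ : H → ℂ} (h : Dft p d ϑ) : d ≤ (Nat.card H).factorization p := by
  obtain ⟨n, -, h⟩ := h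
  omega

theorem Dft_ten' [Finite H] [Finite K] {i j : ℕ} {θ : H → ℂ} {ψ : K → ℂ} (hθ : IsIrrChar θ)
    (hψ : IsIrrChar ψ) (h1 : Dft p i θ) (h2 : Dft p j ψ) : Dft p (i + j) (ten θ ψ) := by
  obtain ⟨n, hn, h1⟩ := h1
  obtain ⟨m, hm, h2⟩ := h2
  have hn0 : n ≠ 0 := by
    rintro rfl
    exact irr_one_ne' hθ (by rw [hn]; simp)
  have hm0 : m ≠ 0 := by
    rintro rfl
    exact irr_one_ne' hψ (by rw [hm]; simp)
  refine ⟨n * m, ?_, ?_⟩
  · change θ 1 * ψ 1 = _
    rw [hn, hm]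
    push_cast
    rfl
  · rw [Nat.card_prod, Nat.factorization_mul hn0 hm0,
      Nat.factorization_mul Nat.card_pos.ne' Nat.card_pos.ne']
    simp only [Finsupp.add_apply]
    omega

theorem Dft_ten [Finite H] [Finite K] {d : ℕ} {θ : H → ℂ} {ψ : K → ℂ} (hθ : IsIrrChar θ)
    (hψ : IsIrrChar ψ) : Dft p d (ten θ ψ) ↔
      ∃ i ∈ Finset.HasAntidiagonal.antidiagonal d, Dft p i.1 θ ∧ Dft p i.2 ψ := by
  constructor
  · intro h
    obtain ⟨i, hi⟩ := Dft_exists p hθ
    obtain ⟨j, hj⟩ := Dft_exists p hψ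
    refine ⟨(i, j), ?_, hi, hj⟩
    rw [Finset.HasAntidiagonal.mem_antidiagonal]
    exact Dft_unique (Dft_ten' hθ hψ hi hj) h
  · rintro ⟨i, hi, h1, h2⟩
    rw [Finset.HasAntidiagonal.mem_antidiagonal] at hi
    rw [← hi]
    exact Dft_ten' hθ hψ h1 h2

end dft

theorem altSum_zero {G : Type} [Group G] {p : ℕ} {O : Subgroup G} {f : Subgroup G → ℤ}
    (h : ∀ H, f H = 0) : altSum p O f = 0 := by
  unfold altSum
  simp only [h, mul_zero, finsum_zero]

section sums

variable {F : Type} [Field F] (red : integralClosure ℤ ℂ →+* F)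
variable {G G' : Type} [Group G] [Group G']

/-- the alternating sum of the numbers of the characters of defect `d` with the property `A` -/
def dsum (p : ℕ) (O : Subgroup G) (χ : G → ℂ) (A : ∀ H : Subgroup G, (H → ℂ) → Prop) (d : ℕ) : ℤ :=
  altSum p O (num red χ fun H ϑ => Dft p d ϑ ∧ A H ϑ)

theorem dsum_supp [Finite G] {p : ℕ} (O : Subgroup G) (χ : G → ℂ)
    (A : ∀ H : Subgroup G, (H → ℂ) → Prop) {d : ℕ} (hd : Nat.log 2 (Nat.card G) < d)
    (hp : p.Prime) : dsum red p O χ A d = 0 := by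
  refine altSum_zero fun H => ?_
  unfold num
  have : IsEmpty {ϑ : H → ℂ // IsIrrChar ϑ ∧ Induces red χ ϑ ∧ Dft p d ϑ ∧ A H ϑ} := by
    refine ⟨?_⟩
    rintro ⟨ϑ, -, -, h, -⟩
    have h1 := Dft_le h
    have h2 : 2 ^ (Nat.card H).factorization p ≤ Nat.card G := by
      calc 2 ^ (Nat.card H).factorization p ≤ p ^ (Nat.card H).factorization p :=
            Nat.pow_le_pow_left hp.two_le _
        _ ≤ Nat.card H := Nat.le_of_dvd Nat.card_pos (Nat.ordProj_dvd _ _)
        _ ≤ Nat.card G := Nat.le_of_dvd Nat.card_pos (Subgroup.card_subgroup_dvd_card H)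
    have h3 := Nat.le_log_of_pow_le (b := 2) (by norm_num) h2
    omega
  rw [Nat.card_of_isEmpty]
  rfl

/-- **Convolution**: Dade's alternating sums for direct products -/
theorem dsum_prod [Finite G] [Finite G'] {p : ℕ} [Fact p.Prime] {O : Subgroup G} {O' : Subgroup G'}
    {χ : G → ℂ} {χ' : G' → ℂ} (hO : IsPGroup p O) (hO' : IsPGroup p O') (n : O.Normal)
    (n' : O'.Normal) (hχ : IsIrrChar χ) (hχ' : IsIrrChar χ')
    (A : ∀ H : Subgroup G, (H → ℂ) → Prop) (A' : ∀ H : Subgroup G', (H → ℂ) → Prop)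
    (A'' : ∀ H : Subgroup (G × G'), (H → ℂ) → Prop)
    (hA : ∀ (g : G) (H : Subgroup G) (ϑ : conjSub g H → ℂ),
      A H (fun x => ϑ (cj g H x)) ↔ A (conjSub g H) ϑ)
    (hA' : ∀ (g : G') (H : Subgroup G') (ϑ : conjSub g H → ℂ),
      A' H (fun x => ϑ (cj g H x)) ↔ A' (conjSub g H) ϑ)
    (hA'' : ∀ (g : G × G') (H : Subgroup (G × G')) (ϑ : conjSub g H → ℂ),
      A'' H (fun x => ϑ (cj g H x)) ↔ A'' (conjSub g H) ϑ)
    (hAA : ∀ (H : Subgroup G) (K : Subgroup G') (θ : H → ℂ) (ψ : K → ℂ), IsIrrChar θ →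
      IsIrrChar ψ → (A'' (H.prod K) (fun x => ten θ ψ (Subgroup.prodEquiv H K x)) ↔
        A H θ ∧ A' K ψ)) (d : ℕ) :
    dsum red p (O.prod O') (ten χ χ') A'' d =
      conv (dsum red p O χ A) (dsum red p O' χ' A') d := by
  unfold dsum conv
  rw [altSum_prod hO hO' n n' (Finset.HasAntidiagonal.antidiagonal d) _
    (fun i : ℕ × ℕ => num red χ (fun H ϑ => Dft p i.1 ϑ ∧ A H ϑ))
    (fun i : ℕ × ℕ => num red χ' (fun H ϑ => Dft p i.2 ϑ ∧ A' H ϑ))
    (num_conj red _ fun g H ϑ => and_congr (Dft_congr _ _) (hA'' g H ϑ))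
    (fun i => num_conj red _ fun g H ϑ => and_congr (Dft_congr _ _) (hA g H ϑ))
    (fun i => num_conj red _ fun g H ϑ => and_congr (Dft_congr _ _) (hA' g H ϑ))]
  intro H K
  refine num_prod red hχ hχ' (Finset.HasAntidiagonal.antidiagonal d) _
    (fun (i : ℕ × ℕ) H ϑ => Dft p i.1 ϑ ∧ A H ϑ) (fun (i : ℕ × ℕ) H ϑ => Dft p i.2 ϑ ∧ A' H ϑ) H K
    (fun θ ψ h1 h2 => ?_) (fun θ ψ i hi j hj h1 h2 h3 h4 => ?_)
  · have e : Dft p d (fun x => ten θ ψ (Subgroup.prodEquiv H K x)) ↔ Dft p d (ten θ ψ) :=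
      Dft_congr (Subgroup.prodEquiv H K) (ten θ ψ)
    rw [hAA H K θ ψ h1 h2, e, Dft_ten h1 h2]
    constructor
    · rintro ⟨⟨i, hi, a, b⟩, c, d⟩
      exact ⟨i, hi, ⟨a, c⟩, b, d⟩
    · rintro ⟨i, hi, ⟨a, c⟩, b, d⟩
      exact ⟨⟨i, hi, a, b⟩, c, d⟩
  · exact Prod.ext (Dft_unique h1.1 h3.1) (Dft_unique h2.1 h4.1)

end sums

/-- **A one-sided inequality suffices**: for sequences closed under convolution squares, vanishing
follows if the first nonzero member is never positive, and one-sided subpolynomial bounds leave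
only one member `± 1`. -/
theorem dichotomy {P : ℕ → (ℕ → ℤ) → Prop} (hpos : ∀ n f, P n f → 1 ≤ n)
    (hsupp : ∀ n f, P n f → ∀ d, Nat.log 2 n < d → f d = 0)
    (hsq : ∀ n f, P n f → P (n * n) (conv f f)) :
    ((∀ n f, P n f → ∀ d, f d = 0) ↔
      ∀ n f, P n f → ∀ d, (∀ e, e < d → f e = 0) → f d ≤ 0) ∧
    ((∀ n f, P n f → ∀ N, ∑ d ∈ Finset.range N, f d ^ 2 ≤ 1) ↔
      ∀ ε : ℝ, 0 < ε → ∃ C : ℝ, ∀ n f, P n f → ∀ d, (f d : ℝ) ≤ C * (n : ℝ) ^ ε) := by
  refine ⟨⟨fun h n f hP d _ => (h n f hP d).le, fun h n f hP => ?_⟩,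
    fun h ε hε => ⟨1, fun n f hP d => ?_⟩, fun h => energy_le hpos hsupp hsq h⟩
  · by_contra hne
    push Not at hne
    obtain ⟨d, hd, hmin⟩ : ∃ d, f d ≠ 0 ∧ ∀ e, e < d → f e = 0 := by
      refine ⟨Nat.find hne, Nat.find_spec hne, fun e he => ?_⟩
      by_contra h1
      exact Nat.find_min hne he h1
    have h0 : ∀ e, e < 2 * d → conv f f e = 0 := by
      intro e he
      unfold conv
      refine Finset.sum_eq_zero fun x hx => ?_
      rw [Finset.HasAntidiagonal.mem_antidiagonal] at hx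
      rcases lt_or_ge x.1 d with h3 | h3
      · rw [hmin _ h3, zero_mul]
      · rw [hmin x.2 (by omega), mul_zero]
    have h1 := h _ _ (hsq n f hP) (2 * d) h0
    have h2 : conv f f (2 * d) = f d * f d := by
      unfold conv
      rw [Finset.sum_eq_single (d, d)]
      · rintro ⟨i, j⟩ hij hne'
        rw [Finset.HasAntidiagonal.mem_antidiagonal] at hij
        simp only at hij ⊢
        rcases lt_trichotomy i d with h3 | h3 | h3
        · rw [hmin i h3, zero_mul]
        · exact absurd (Prod.ext h3 (by simp only; omega)) hne'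
        · rw [hmin j (by omega), mul_zero]
      · intro h3
        rw [Finset.HasAntidiagonal.mem_antidiagonal] at h3
        exact absurd (by simp only; omega) h3
    rw [h2] at h1
    exact hd (mul_self_eq_zero.1 (le_antisymm h1 (mul_self_nonneg _)))
  · have h1 : f d ^ 2 ≤ 1 := by
      refine le_trans ?_ (h n f hP (d + 1))
      exact Finset.single_le_sum (f := fun e => f e ^ 2) (fun _ _ => sq_nonneg _)
        (Finset.self_mem_range_succ d)
    have h2 : (f d : ℝ) ≤ 1 := by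
      have : f d ≤ 1 := by nlinarith [sq_nonneg (f d - 1)]
      exact_mod_cast this
    have h3 : (1 : ℝ) ≤ (n : ℝ) := by exact_mod_cast hpos n f hP
    rw [one_mul]
    exact h2.trans (Real.one_le_rpow h3 hε.le)

theorem aeval_finsum (Q : Polynomial ℤ) (t : ℝ) :
    Polynomial.aeval t Q = ∑ᶠ d : ℕ, (Q.coeff d : ℝ) * t ^ d := by
  rw [Polynomial.aeval_eq_sum_range,
    finsum_eq_sum_of_support_subset (s := Finset.range (Q.natDegree + 1))]
  · refine Finset.sum_congr rfl fun d _ => ?_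
    rw [zsmul_eq_mul]
  · intro d hd
    rw [Finset.coe_range, Set.mem_Iio]
    by_contra h
    apply hd
    change (Q.coeff d : ℝ) * t ^ d = 0
    have h1 : Q.natDegree < d := by omega
    rw [Polynomial.coeff_eq_zero_of_natDegree_lt h1]
    simp

/-- **One inequality for each block suffices.** -/
theorem real_ineq {P : ℕ → (ℕ → ℤ) → Prop}
    (hsupp : ∀ n f, P n f → ∀ d, Nat.log 2 n < d → f d = 0)
    (hsq : ∀ n f, P n f → P (n * n) (conv f f)) (t : ℝ) (ht : Transcendental ℤ t) :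
    (∀ n f, P n f → ∀ d, f d = 0) ↔ ∀ n f, P n f → ∑ᶠ d : ℕ, (f d : ℝ) * t ^ d ≤ 0 := by
  constructor
  · intro h n f hP
    simp only [h n f hP, Int.cast_zero, zero_mul, finsum_zero, le_refl]
  · intro h n f hP
    let Q : Polynomial ℤ := ∑ d ∈ Finset.range (Nat.log 2 n + 1), Polynomial.monomial d (f d)
    have hQ : ∀ d, Q.coeff d = f d := by
      intro d
      simp only [Q, Polynomial.finsetSum_coeff, Polynomial.coeff_monomial]
      by_cases hd : d < Nat.log 2 n + 1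
      · rw [Finset.sum_eq_single d]
        · rw [if_pos rfl]
        · intro e _ he
          rw [if_neg he]
        · intro h1
          exact absurd (Finset.mem_range.2 hd) h1
      · rw [hsupp n f hP d (by omega)]
        refine Finset.sum_eq_zero fun e he => ?_
        rw [Finset.mem_range] at he
        rw [if_neg (by omega)]
    have hQQ : ∀ d, (Q * Q).coeff d = conv f f d := by
      intro d
      rw [Polynomial.coeff_mul]
      unfold conv
      refine Finset.sum_congr rfl fun x _ => ?_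
      rw [hQ, hQ]
    have h1 := h _ _ (hsq n f hP)
    have h2 : ∑ᶠ d : ℕ, (conv f f d : ℝ) * t ^ d = (Polynomial.aeval t Q) ^ 2 := by
      rw [pow_two, ← map_mul, aeval_finsum]
      simp only [hQQ]
    rw [h2] at h1
    have h3 : Polynomial.aeval t Q = 0 := by
      have := le_antisymm h1 (sq_nonneg _)
      exact pow_eq_zero_iff (two_ne_zero) |>.1 this
    have h4 : Q = 0 := transcendental_iff.1 ht Q h3
    intro d
    rw [← hQ, h4, Polynomial.coeff_zero]

end Pool.Agent.Q99.AS
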