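import Pool.Agent.Q100.IV.Main
import Pool.Agent.Q99.AS.Dade

/-!
# Dade's invariant sums over radical chains for direct products
-/

set_option autoImplicit false
set_option linter.unusedSectionVars false

open scoped Classical

noncomputable section

namespace Pool.Agent.Q99.AS

open Pool.Agent.Helper884.IC
open Pool.Agent.Q90.WR (deg_pos card_transport)
open Pool.Agent.Y63.KR (conjSub chainStabilizer conjSub_eq_iff)
open Pool.Agent.Q100.IV (IsRadChain radSum inert IsOp Op isOp_iff card_mul_radSum sum_rad Fx)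

section chains

variable {E : Type} [Group E] [Finite E] {p : ℕ}

instance fRad {G : Subgroup E} : Fintype {σ : Set (Subgroup E) // IsRadChain p G σ} :=
  Fintype.ofFinite _

/-- the signed sum over the radical chains -/
def rs (p : ℕ) (G : Subgroup E) (w : Subgroup E → ℤ) : ℤ :=
  ∑ σ : {σ : Set (Subgroup E) // IsRadChain p G σ}, (-1) ^ σ.1.ncard * w (chainStabilizer σ.1)

/-- the `p`-subgroups of `G` that are normalised by `K` -/
def SG (p : ℕ) (G K : Subgroup E) [Fintype (Subgroup E)] : Finset (Subgroup E) :=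
  Finset.univ.filter fun P => IsPGroup p P ∧ P ≤ G ∧ K ≤ Subgroup.normalizer (P : Set E)

theorem mem_SG [Fintype (Subgroup E)] {G K P : Subgroup E} :
    P ∈ SG p G K ↔ IsPGroup p P ∧ P ≤ G ∧ K ≤ Subgroup.normalizer (P : Set E) := by simp [SG]

theorem sum_rad' [Fact p.Prime] [Fintype (Subgroup E)] {G : Subgroup E} [G.Normal]
    (hO : Op p G = ⊥) (K : Subgroup E) :
    ∑ σ : {σ : Set (Subgroup E) // IsRadChain p G σ},
      (-1 : ℤ) ^ σ.1.ncard * (if K ≤ chainStabilizer σ.1 then 1 else 0) =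
      ec ((SG p G K).erase ⊥) := by
  have h := sum_rad (p := p) (G := G) (K : Set E) hO
  have e1 : ∀ σ : {σ : Set (Subgroup E) // IsRadChain p G σ},
      ((-1 : ℤ) ^ σ.1.ncard * (if K ≤ chainStabilizer σ.1 then 1 else 0)) =
      (-1 : ℤ) ^ σ.1.ncard * (if ∀ Q ∈ σ.1, ∀ x ∈ (K : Set E), conjSub x Q = Q then 1 else 0) := by
    intro σ
    congr 1
    refine if_congr ?_ rfl rfl
    rw [le_stab]
    refine forall_congr' fun P => forall_congr' fun _ => ?_
    constructor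
    · intro h1 x hx
      exact conjSub_eq_iff.2 (h1 hx)
    · intro h1 x hx
      exact conjSub_eq_iff.1 (h1 x hx)
  refine (Finset.sum_congr rfl fun σ _ => ?_).trans (h.trans ?_)
  · rw [e1 σ]
    congr
  unfold Pool.Agent.Q100.IV.alt ec
  refine Finset.sum_congr ?_ fun _ _ => rfl
  ext σ
  rw [Pool.Agent.Q100.IV.mem_Ch, mem_Ch]
  have e2 : (∀ P ∈ σ, P ∈ Pool.Agent.Q100.IV.SS p (K : Set E) G ⊥) ↔
      ∀ P ∈ σ, P ∈ (SG p G K).erase ⊥ := by
    refine forall_congr' fun P => forall_congr' fun _ => ?_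
    rw [Pool.Agent.Q100.IV.mem_SS, Finset.mem_erase, mem_SG]
    constructor
    · rintro ⟨a, b, c, d⟩
      exact ⟨b.ne', a, c, fun x hx => conjSub_eq_iff.1 (d x hx)⟩
    · rintro ⟨a, b, c, d⟩
      exact ⟨b, bot_lt_iff_ne_bot.2 a, c, fun x hx => conjSub_eq_iff.2 (d hx)⟩
  constructor
  · rintro ⟨a, b⟩
    exact ⟨b, fun P hP => e2.1 (fun P hP => a hP) P hP⟩
  · rintro ⟨a, b⟩
    exact ⟨fun P hP => e2.2 (fun P hP => b hP) P hP, a⟩

theorem rs_transform [Fact p.Prime] [Fintype (Subgroup E)] {G : Subgroup E} [G.Normal]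
    (hO : Op p G = ⊥) (w m : Subgroup E → ℤ)
    (hm : ∀ x, w x = ∑ y ∈ Finset.univ.filter (· ≤ x), m y) :
    rs p G w = ∑ K : Subgroup E, m K * ec ((SG p G K).erase ⊥) := by
  unfold rs
  have h1 : ∀ σ : {σ : Set (Subgroup E) // IsRadChain p G σ},
      (-1 : ℤ) ^ σ.1.ncard * w (chainStabilizer σ.1) =
        ∑ K : Subgroup E, m K *
          ((-1) ^ σ.1.ncard * (if K ≤ chainStabilizer σ.1 then 1 else 0)) := by
    intro σ
    rw [hm, Finset.sum_filter, Finset.mul_sum]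
    refine Finset.sum_congr rfl fun K _ => ?_
    split_ifs <;> ring
  rw [Finset.sum_congr rfl fun σ _ => h1 σ, Finset.sum_comm]
  refine Finset.sum_congr rfl fun K _ => ?_
  rw [← Finset.mul_sum, sum_rad' hO]

end chains

section prod

variable {E₁ E₂ : Type} [Group E₁] [Group E₂] [Finite E₁] [Finite E₂] {p : ℕ} [Fact p.Prime]
  {G₁ : Subgroup E₁} {G₂ : Subgroup E₂} [G₁.Normal] [G₂.Normal]

theorem ec_SG [Fintype (Subgroup E₁)] [Fintype (Subgroup E₂)] [Fintype (Subgroup (E₁ × E₂))]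
    (K : Subgroup (E₁ × E₂)) :
    ec ((SG p (G₁.prod G₂) K).erase ⊥) =
      ec ((SG p G₁ (K.map (MonoidHom.fst E₁ E₂))).erase ⊥) *
        ec ((SG p G₂ (K.map (MonoidHom.snd E₁ E₂))).erase ⊥) := by
  have nt : ∀ {G : Type} [Group G] (K : Subgroup G),
      K ≤ Subgroup.normalizer ((⊥ : Subgroup G) : Set G) := by
    intro G _ K
    have : (⊥ : Subgroup G).Normal := inferInstance
    rw [Subgroup.normalizer_eq_top_iff.2 this]
    exact le_top
  have hb : ∀ {G : Type} [Group G], IsPGroup p (⊥ : Subgroup G) := fun {G} _ => IsPGroup.of_bot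
  refine ec_prod (mem_SG.2 ⟨hb, bot_le, nt K⟩) (mem_SG.2 ⟨hb, bot_le, nt _⟩)
    (mem_SG.2 ⟨hb, bot_le, nt _⟩) (fun x _ => bot_le) (fun x _ => bot_le) (fun x _ => bot_le)
    (fun P => P.map (MonoidHom.fst E₁ E₂)) (fun P => P.map (MonoidHom.snd E₁ E₂))
    (fun P Q => P.prod Q) ?_ ?_ ?_ (fun x _ y _ z _ => le_prod) (fun y _ z _ => ?_)
  · intro P hP
    obtain ⟨a, b, c⟩ := mem_SG.1 hP
    exact mem_SG.2 ⟨a.map _, (le_prod.1 b).1, map_le_normalizer _ c⟩
  · intro P hP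
    obtain ⟨a, b, c⟩ := mem_SG.1 hP
    exact mem_SG.2 ⟨a.map _, (le_prod.1 b).2, map_le_normalizer _ c⟩
  · intro P hP Q hQ
    obtain ⟨a, b, c⟩ := mem_SG.1 hP
    obtain ⟨a', b', c'⟩ := mem_SG.1 hQ
    exact mem_SG.2 ⟨isPGroup_prod a a', Subgroup.prod_mono b b', prod_le_normalizer c c'⟩
  · rw [← Subgroup.bot_prod_bot, prod_eq_iff]

theorem op_prod (h₁ : Op p G₁ = ⊥) (h₂ : Op p G₂ = ⊥) : Op p (G₁.prod G₂) = ⊥ := by
  rw [← isOp_iff] at h₁ h₂ ⊢
  refine ⟨⟨bot_le, IsPGroup.of_bot, fun h _ => Subgroup.map_bot _⟩, fun Q h1 h2 h3 => ?_⟩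
  rw [← Subgroup.bot_prod_bot, le_prod]
  have key1 : ∀ h ∈ G₁, conjSub h (Q.map (MonoidHom.fst E₁ E₂)) = Q.map (MonoidHom.fst E₁ E₂) := by
    intro h hh
    rw [conjSub_eq_iff]
    have := map_le_normalizer (MonoidHom.fst E₁ E₂) (K := G₁.prod G₂) (P := Q)
      (fun x hx => conjSub_eq_iff.1 (h3 x hx))
    exact this ⟨(h, 1), ⟨hh, one_mem _⟩, rfl⟩
  have key2 : ∀ h ∈ G₂, conjSub h (Q.map (MonoidHom.snd E₁ E₂)) = Q.map (MonoidHom.snd E₁ E₂) := by
    intro h hh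
    rw [conjSub_eq_iff]
    have := map_le_normalizer (MonoidHom.snd E₁ E₂) (K := G₁.prod G₂) (P := Q)
      (fun x hx => conjSub_eq_iff.1 (h3 x hx))
    exact this ⟨(1, h), ⟨one_mem _, hh⟩, rfl⟩
  exact ⟨h₁.2 _ (le_prod.1 h1).1 (h2.map _) key1, h₂.2 _ (le_prod.1 h1).2 (h2.map _) key2⟩

/-- **Signed sums over the radical chains of a direct product.** -/
theorem rs_prod (h₁ : Op p G₁ = ⊥) (h₂ : Op p G₂ = ⊥) (w : Subgroup (E₁ × E₂) → ℤ) :
    rs p (G₁.prod G₂) w = ∑ σ : {σ : Set (Subgroup E₁) // IsRadChain p G₁ σ},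
      ∑ τ : {σ : Set (Subgroup E₂) // IsRadChain p G₂ σ},
      (-1) ^ σ.1.ncard * ((-1) ^ τ.1.ncard * w ((chainStabilizer σ.1).prod
        (chainStabilizer τ.1))) := by
  let _ : Fintype (Subgroup E₁) := Fintype.ofFinite _
  let _ : Fintype (Subgroup E₂) := Fintype.ofFinite _
  let _ : Fintype (Subgroup (E₁ × E₂)) := Fintype.ofFinite _
  have _ : (G₁.prod G₂).Normal := Subgroup.prod_normal G₁ G₂
  obtain ⟨m, hm⟩ := exists_transform w
  rw [rs_transform (op_prod h₁ h₂) w m hm]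
  have hR : ∀ (σ : {σ : Set (Subgroup E₁) // IsRadChain p G₁ σ})
      (τ : {σ : Set (Subgroup E₂) // IsRadChain p G₂ σ}),
      (-1 : ℤ) ^ σ.1.ncard * ((-1) ^ τ.1.ncard * w ((chainStabilizer σ.1).prod
        (chainStabilizer τ.1))) =
      ∑ K : Subgroup (E₁ × E₂), m K *
        (((-1) ^ σ.1.ncard *
          (if K.map (MonoidHom.fst E₁ E₂) ≤ chainStabilizer σ.1 then 1 else 0)) *
        ((-1) ^ τ.1.ncard *
          (if K.map (MonoidHom.snd E₁ E₂) ≤ chainStabilizer τ.1 then 1 else 0))) := by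
    intro σ τ
    rw [hm, Finset.sum_filter, Finset.mul_sum, Finset.mul_sum]
    refine Finset.sum_congr rfl fun K _ => ?_
    by_cases a : K.map (MonoidHom.fst E₁ E₂) ≤ chainStabilizer σ.1 <;>
    by_cases b : K.map (MonoidHom.snd E₁ E₂) ≤ chainStabilizer τ.1
    · rw [if_pos (le_prod.2 ⟨a, b⟩), if_pos a, if_pos b]; ring
    · rw [if_neg (fun h => b (le_prod.1 h).2), if_neg b]; ring
    · rw [if_neg (fun h => a (le_prod.1 h).1), if_neg a]; ring
    · rw [if_neg (fun h => a (le_prod.1 h).1), if_neg a]; ring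
  simp_rw [hR]
  have h2 : ∀ σ : {σ : Set (Subgroup E₁) // IsRadChain p G₁ σ},
      ∑ τ : {σ : Set (Subgroup E₂) // IsRadChain p G₂ σ}, ∑ K : Subgroup (E₁ × E₂), m K *
        (((-1 : ℤ) ^ σ.1.ncard *
          (if K.map (MonoidHom.fst E₁ E₂) ≤ chainStabilizer σ.1 then 1 else 0)) *
        ((-1) ^ τ.1.ncard *
          (if K.map (MonoidHom.snd E₁ E₂) ≤ chainStabilizer τ.1 then 1 else 0))) =
      ∑ K : Subgroup (E₁ × E₂), m K * (((-1) ^ σ.1.ncard *
          (if K.map (MonoidHom.fst E₁ E₂) ≤ chainStabilizer σ.1 then 1 else 0)) *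
        ec ((SG p G₂ (K.map (MonoidHom.snd E₁ E₂))).erase ⊥)) := by
    intro σ
    rw [Finset.sum_comm]
    refine Finset.sum_congr rfl fun K _ => ?_
    rw [← Finset.mul_sum, ← Finset.mul_sum, sum_rad' h₂]
  simp_rw [h2]
  rw [Finset.sum_comm]
  refine Finset.sum_congr rfl fun K _ => ?_
  rw [← Finset.mul_sum, ← Finset.sum_mul, sum_rad' h₁, ec_SG]

theorem inf_prod (H : Subgroup E₁) (K : Subgroup E₂) :
    (G₁.prod G₂) ⊓ (H.prod K) = (G₁ ⊓ H).prod (G₂ ⊓ K) := by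
  ext ⟨x, y⟩
  simp only [Subgroup.mem_inf, Subgroup.mem_prod]
  tauto

/-- **The alternating sums over the radical chains of a direct product.** -/
theorem radSum_prod (h₁ : Op p G₁ = ⊥) (h₂ : Op p G₂ = ⊥) {ι : Type} (I : Finset ι)
    (f : Subgroup (E₁ × E₂) → ℤ) (a : ι → Subgroup E₁ → ℤ) (b : ι → Subgroup E₂ → ℤ)
    (hf : ∀ g ∈ G₁.prod G₂, ∀ S : Subgroup (E₁ × E₂), f (conjSub g S) = f S)
    (ha : ∀ i, ∀ g ∈ G₁, ∀ S : Subgroup E₁, a i (conjSub g S) = a i S)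
    (hb : ∀ i, ∀ g ∈ G₂, ∀ S : Subgroup E₂, b i (conjSub g S) = b i S)
    (h : ∀ (H : Subgroup E₁) (K : Subgroup E₂), f (H.prod K) = ∑ i ∈ I, a i H * b i K) :
    radSum p (G₁.prod G₂) f = ∑ i ∈ I, radSum p G₁ (a i) * radSum p G₂ (b i) := by
  have _ : (G₁.prod G₂).Normal := Subgroup.prod_normal G₁ G₂
  have e := card_mul_radSum (p := p) (G := G₁.prod G₂) f hf
  have e0 : (Nat.card (G₁.prod G₂) : ℤ) * radSum p (G₁.prod G₂) f =
      rs p (G₁.prod G₂) (fun H => (Nat.card (G₁.prod G₂ ⊓ H : Subgroup (E₁ × E₂)) : ℤ) * f H) := e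
  rw [rs_prod h₁ h₂] at e0
  have e1 : ∀ i, (Nat.card G₁ : ℤ) * radSum p G₁ (a i) =
      rs p G₁ (fun H => (Nat.card (G₁ ⊓ H : Subgroup E₁) : ℤ) * a i H) := fun i =>
    card_mul_radSum (p := p) (G := G₁) (a i) (ha i)
  have e2 : ∀ i, (Nat.card G₂ : ℤ) * radSum p G₂ (b i) =
      rs p G₂ (fun H => (Nat.card (G₂ ⊓ H : Subgroup E₂) : ℤ) * b i H) := fun i =>
    card_mul_radSum (p := p) (G := G₂) (b i) (hb i)
  have e3 : (Nat.card (G₁.prod G₂) : ℤ) * radSum p (G₁.prod G₂) f =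
      (Nat.card (G₁.prod G₂) : ℤ) * ∑ i ∈ I, radSum p G₁ (a i) * radSum p G₂ (b i) := by
    rw [e0]
    have e4 : (Nat.card (G₁.prod G₂) : ℤ) * ∑ i ∈ I, radSum p G₁ (a i) * radSum p G₂ (b i) =
        ∑ i ∈ I, ((Nat.card G₁ : ℤ) * radSum p G₁ (a i)) *
          ((Nat.card G₂ : ℤ) * radSum p G₂ (b i)) := by
      rw [card_prod', Finset.mul_sum]
      push_cast
      exact Finset.sum_congr rfl fun i _ => by ring
    rw [e4]
    simp_rw [e1, e2, rs, Finset.sum_mul_sum]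
    have e5 : ∀ (H : Subgroup E₁) (K : Subgroup E₂),
        (Nat.card (G₁.prod G₂ ⊓ H.prod K : Subgroup (E₁ × E₂)) : ℤ) * f (H.prod K) =
          ∑ i ∈ I, ((Nat.card (G₁ ⊓ H : Subgroup E₁) : ℤ) * a i H) *
            ((Nat.card (G₂ ⊓ K : Subgroup E₂) : ℤ) * b i K) := by
      intro H K
      rw [h, inf_prod, card_prod', Finset.mul_sum]
      push_cast
      exact Finset.sum_congr rfl fun i _ => by ring
    simp_rw [e5, Finset.mul_sum]
    have e6 : ∀ σ : {σ : Set (Subgroup E₁) // IsRadChain p G₁ σ},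
        ∑ τ : {σ : Set (Subgroup E₂) // IsRadChain p G₂ σ}, ∑ i ∈ I,
        (-1 : ℤ) ^ σ.1.ncard * ((-1) ^ τ.1.ncard *
          (((Nat.card (G₁ ⊓ chainStabilizer σ.1 : Subgroup E₁) : ℤ) *
            a i (chainStabilizer σ.1)) *
          ((Nat.card (G₂ ⊓ chainStabilizer τ.1 : Subgroup E₂) : ℤ) *
            b i (chainStabilizer τ.1)))) =
        ∑ i ∈ I, ∑ τ : {σ : Set (Subgroup E₂) // IsRadChain p G₂ σ},
        (-1 : ℤ) ^ σ.1.ncard * ((-1) ^ τ.1.ncard *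
          (((Nat.card (G₁ ⊓ chainStabilizer σ.1 : Subgroup E₁) : ℤ) *
            a i (chainStabilizer σ.1)) *
          ((Nat.card (G₂ ⊓ chainStabilizer τ.1 : Subgroup E₂) : ℤ) *
            b i (chainStabilizer τ.1)))) := fun σ => Finset.sum_comm
    simp_rw [e6]
    rw [Finset.sum_comm]
    refine Finset.sum_congr rfl fun i _ => Finset.sum_congr rfl fun σ _ =>
      Finset.sum_congr rfl fun τ _ => by ring
  have hpos : (Nat.card (G₁.prod G₂) : ℤ) ≠ 0 := by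
    have : 0 < Nat.card (G₁.prod G₂) := Nat.card_pos
    exact_mod_cast this.ne'
  exact mul_left_cancel₀ hpos e3

end prod

end Pool.Agent.Q99.AS
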