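import Pool.Agent.Q99.AS.Inv

/-!
# The numbers in Dade's invariant conjecture for direct products
-/

set_option autoImplicit false
set_option linter.unusedSectionVars false

open scoped Classical

noncomputable section

namespace Pool.Agent.Q99.AS

open Pool.Agent.Helper884.IC
open Pool.Agent.Q90.WR (deg_pos card_transport irr_comp)
open Pool.Agent.Y63.KR (conjSub chainStabilizer conjSub_eq_iff mem_conjSub)
open Pool.Agent.Q100.IV (IsRadChain radSum inert IsOp Op isOp_iff Fx cjS fx_iff mem_inert conjSub_inf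
  conj_normal)

section ind

variable {F : Type} [Field F] (red : integralClosure ℤ ℂ →+* F)
variable {J J' G G' : Type} [Group J] [Group J'] [Group G] [Group G']

/-- `bl(ϑ)^G = bl(χ)` for an irreducible character `ϑ` of `J`, a group mapped into `G` by `φ` -/
def Ind (φ : J →* G) (χ : G → ℂ) (ϑ : J → ℂ) : Prop :=
  ∀ g : G, lam red φ ϑ g = lam red (MonoidHom.id G) χ g

theorem lam_iso (e : J ≃* J') (T : G ≃* G') (φ : J →* G) (φ' : J' →* G')
    (h : ∀ x, IsConj (T (φ x)) (φ' (e x))) (χ : J' → ℂ) (g : G) :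
    lam red φ (fun x => χ (e x)) g = lam red φ' χ (T g) := by
  unfold lam
  have h1 : (fun x => χ (e x)) 1 = χ 1 := by
    simp only [map_one]
  rw [h1]
  congr 2
  refine finsum_eq_of_bijective
    (fun x => ⟨e x.1, (T.toMonoidHom.map_isConj x.2).trans (h x.1)⟩) ?_ (fun x => rfl)
  constructor
  · intro x y hxy
    exact Subtype.ext (e.injective (congrArg Subtype.val hxy))
  · rintro ⟨y, hy⟩
    refine ⟨⟨e.symm y, ?_⟩, Subtype.ext (e.apply_symm_apply y)⟩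
    have := h (e.symm y)
    rw [e.apply_symm_apply] at this
    have h2 : IsConj (T g) (T (φ (e.symm y))) := hy.trans this.symm
    have h3 := T.symm.toMonoidHom.map_isConj h2
    simpa using h3

theorem Ind_iso (e : J ≃* J') (T : G ≃* G') (φ : J →* G) (φ' : J' →* G')
    (h : ∀ x, IsConj (T (φ x)) (φ' (e x))) (χ : G' → ℂ) (ϑ : J' → ℂ) :
    Ind red φ (fun x => χ (T x)) (fun x => ϑ (e x)) ↔ Ind red φ' χ ϑ := by
  unfold Ind
  have h1 : ∀ g, lam red (MonoidHom.id G) (fun x => χ (T x)) g =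
      lam red (MonoidHom.id G') χ (T g) := fun g =>
    lam_iso red T T (MonoidHom.id G) (MonoidHom.id G') (fun x => IsConj.refl _) χ g
  simp only [h1, lam_iso red e T φ φ' h ϑ]
  constructor
  · intro h g'
    obtain ⟨g, rfl⟩ := T.surjective g'
    exact h g
  · intro h g
    exact h (T g)

theorem Ind_ten [Finite J] [Finite J'] [Finite G] [Finite G'] {φ : J →* G} {φ' : J' →* G'}
    (hφ : Function.Injective φ) (hφ' : Function.Injective φ') {χ : G → ℂ} {χ' : G' → ℂ}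
    (hχ : IsIrrChar χ) (hχ' : IsIrrChar χ') {θ : J → ℂ} {ψ : J' → ℂ}
    (h1 : IsIrrChar θ) (h2 : IsIrrChar ψ) :
    Ind red (φ.prodMap φ') (ten χ χ') (ten θ ψ) ↔ Ind red φ χ θ ∧ Ind red φ' χ' ψ := by
  have := Fintype.ofFinite G
  have := Fintype.ofFinite G'
  have := Fintype.ofFinite J
  have := Fintype.ofFinite J'
  have e1 : ∀ (g : G) (g' : G'), lam red (φ.prodMap φ') (ten θ ψ) (g, g') =
      lam red φ θ g * lam red φ' ψ g' := fun g g' => lam_ten red h1 h2 φ φ' g g'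
  have e2 : ∀ (g : G) (g' : G'), lam red (MonoidHom.id (G × G')) (ten χ χ') (g, g') =
      lam red (MonoidHom.id G) χ g * lam red (MonoidHom.id G') χ' g' := by
    intro g g'
    exact lam_ten red hχ hχ' (MonoidHom.id G) (MonoidHom.id G') g g'
  have i1 := lam_one red (irr_one_ne' h1) hφ
  have i2 := lam_one red (irr_one_ne' h2) hφ'
  have i3 := lam_one red (irr_one_ne' hχ) (φ := MonoidHom.id G) Function.injective_id
  have i4 := lam_one red (irr_one_ne' hχ') (φ := MonoidHom.id G') Function.injective_id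
  constructor
  · intro h
    refine ⟨fun g => ?_, fun g' => ?_⟩
    · have := h (g, 1)
      rwa [e1, e2, i2, i4, mul_one, mul_one] at this
    · have := h (1, g')
      rwa [e1, e2, i1, i3, one_mul, one_mul] at this
  · rintro ⟨h, h'⟩ ⟨g, g'⟩
    rw [e1, e2, h g, h' g']

end ind

section quot

variable {E₁ E₂ : Type} [Group E₁] [Group E₂]

theorem map_mk_conj {E : Type} [Group E] {G : Subgroup E} [G.Normal] {g : E} (hg : g ∈ G)
    (W : Subgroup E) :
    (conjSub g W).map (QuotientGroup.mk' G) = W.map (QuotientGroup.mk' G) := by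
  unfold conjSub
  rw [Subgroup.map_map]
  congr 1
  ext x
  have h1 : QuotientGroup.mk' G g = 1 := (QuotientGroup.eq_one_iff g).2 hg
  change QuotientGroup.mk' G (g * x * g⁻¹) = QuotientGroup.mk' G x
  rw [map_mul, map_mul, map_inv, h1]
  simp

/-- the subgroup `U × V` of `(E₁ × E₂) / (G₁ × G₂)` -/
def prodU (G₁ : Subgroup E₁) (G₂ : Subgroup E₂) [G₁.Normal] [G₂.Normal] [(G₁.prod G₂).Normal]
    (U : Subgroup (E₁ ⧸ G₁)) (V : Subgroup (E₂ ⧸ G₂)) : Subgroup ((E₁ × E₂) ⧸ G₁.prod G₂) :=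
  ((U.comap (QuotientGroup.mk' G₁)).prod (V.comap (QuotientGroup.mk' G₂))).map
    (QuotientGroup.mk' (G₁.prod G₂))

theorem prod_sup (A B : Subgroup E₁) (C D : Subgroup E₂) :
    A.prod C ⊔ B.prod D = (A ⊔ B).prod (C ⊔ D) := by
  apply le_antisymm
  · exact sup_le (Subgroup.prod_mono le_sup_left le_sup_left)
      (Subgroup.prod_mono le_sup_right le_sup_right)
  · have h1 : ∀ x ∈ A ⊔ B, ((x, (1 : E₂)) : E₁ × E₂) ∈ A.prod C ⊔ B.prod D := by
      have : A ⊔ B ≤ (A.prod C ⊔ B.prod D).comap (MonoidHom.inl E₁ E₂) :=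
        sup_le (fun a ha => (le_sup_left : A.prod C ≤ _) ⟨ha, one_mem _⟩)
          (fun a ha => (le_sup_right : B.prod D ≤ _) ⟨ha, one_mem _⟩)
      exact fun x hx => this hx
    have h2 : ∀ y ∈ C ⊔ D, (((1 : E₁), y) : E₁ × E₂) ∈ A.prod C ⊔ B.prod D := by
      have : C ⊔ D ≤ (A.prod C ⊔ B.prod D).comap (MonoidHom.inr E₁ E₂) :=
        sup_le (fun a ha => (le_sup_left : A.prod C ≤ _) ⟨one_mem _, ha⟩)
          (fun a ha => (le_sup_right : B.prod D ≤ _) ⟨one_mem _, ha⟩)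
      exact fun x hx => this hx
    rintro ⟨x, y⟩ ⟨hx, hy⟩
    have := mul_mem (h1 x hx) (h2 y hy)
    simpa using this

theorem map_prod_iff {G₁ : Subgroup E₁} {G₂ : Subgroup E₂} [G₁.Normal] [G₂.Normal]
    [(G₁.prod G₂).Normal] (U : Subgroup (E₁ ⧸ G₁)) (V : Subgroup (E₂ ⧸ G₂)) (A : Subgroup E₁)
    (C : Subgroup E₂) :
    (A.prod C).map (QuotientGroup.mk' (G₁.prod G₂)) = prodU G₁ G₂ U V ↔
      A.map (QuotientGroup.mk' G₁) = U ∧ C.map (QuotientGroup.mk' G₂) = V := by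
  have key : ∀ {E : Type} [Group E] {G : Subgroup E} [G.Normal] (U : Subgroup (E ⧸ G))
      (A : Subgroup E), A ⊔ G = U.comap (QuotientGroup.mk' G) ↔ A.map (QuotientGroup.mk' G) = U := by
    intro E _ G _ U A
    constructor
    · intro h
      have h1 := congrArg (Subgroup.map (QuotientGroup.mk' G)) h
      rw [Subgroup.map_comap_eq_self_of_surjective (QuotientGroup.mk'_surjective G),
        Subgroup.map_sup] at h1
      have h2 : G.map (QuotientGroup.mk' G) = ⊥ := by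
        rw [Subgroup.map_eq_bot_iff, QuotientGroup.ker_mk']
      rw [h2, sup_bot_eq] at h1
      exact h1
    · intro h
      rw [← h, Subgroup.comap_map_eq, QuotientGroup.ker_mk']
  unfold prodU
  rw [Subgroup.map_eq_map_iff, QuotientGroup.ker_mk', prod_sup, prod_sup, prod_eq_iff]
  have e1 : U.comap (QuotientGroup.mk' G₁) ⊔ G₁ = U.comap (QuotientGroup.mk' G₁) := by
    rw [sup_eq_left]
    intro x hx
    have h1 : QuotientGroup.mk' G₁ x = 1 := (QuotientGroup.eq_one_iff x).2 hx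
    rw [Subgroup.mem_comap, h1]
    exact one_mem _
  have e2 : V.comap (QuotientGroup.mk' G₂) ⊔ G₂ = V.comap (QuotientGroup.mk' G₂) := by
    rw [sup_eq_left]
    intro x hx
    have h1 : QuotientGroup.mk' G₂ x = 1 := (QuotientGroup.eq_one_iff x).2 hx
    rw [Subgroup.mem_comap, h1]
    exact one_mem _
  rw [e1, e2, key, key]

end quot

section kk

variable {F : Type} [Field F] (red : integralClosure ℤ ℂ →+* F)

/-- `k_C(B, d, U)` for `S = N_E(C)` and the block `B` of `χ` -/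
def kI (p : ℕ) {E : Type} [Group E] (G : Subgroup E) [G.Normal] (χ : G → ℂ) (d : ℕ)
    (U : Subgroup (E ⧸ G)) (S : Subgroup E) : ℤ :=
  Nat.card {ψ : (G ⊓ S : Subgroup E) → ℂ // IsIrrChar ψ ∧
    (Ind red (Subgroup.inclusion (inf_le_left : G ⊓ S ≤ G)) χ ψ ∧ Dft p d ψ ∧
      (inert G S ψ).map (QuotientGroup.mk' G) = U)}

theorem inf_conj {E : Type} [Group E] {G : Subgroup E} [G.Normal] (g : E) (S : Subgroup E) :
    conjSub g (G ⊓ S) = G ⊓ conjSub g S := by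
  rw [conjSub_inf, conj_normal (G := G)]

/-- conjugation -/
def cG {E : Type} [Group E] {G : Subgroup E} [G.Normal] (g : E) (S : Subgroup E) :
    (G ⊓ S : Subgroup E) ≃* (G ⊓ conjSub g S : Subgroup E) :=
  (cj g (G ⊓ S)).trans (MulEquiv.subgroupCongr (inf_conj g S))

theorem cG_apply {E : Type} [Group E] {G : Subgroup E} [G.Normal] (g : E) (S : Subgroup E)
    (x : (G ⊓ S : Subgroup E)) : ((cG g S x : (G ⊓ conjSub g S : Subgroup E)) : E) =
      g * x * g⁻¹ := rfl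

theorem inert_conj {E : Type} [Group E] {G : Subgroup E} [G.Normal] (g : E) (S : Subgroup E)
    (ψ : (G ⊓ conjSub g S : Subgroup E) → ℂ) :
    inert G (conjSub g S) ψ = conjSub g (inert G S (fun x => ψ (cG g S x))) := by
  ext y
  rw [mem_conjSub, mem_inert, mem_inert, mem_conjSub]
  refine and_congr_right fun _ => ?_
  constructor
  · intro h a a' ha
    apply h
    rw [cG_apply, cG_apply, ha]
    group
  · intro h b b' hb
    obtain ⟨a, rfl⟩ := (cG g S).surjective b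
    obtain ⟨a', rfl⟩ := (cG g S).surjective b'
    apply h a a'
    rw [cG_apply, cG_apply] at hb
    have e : (a' : E) = g⁻¹ * (g * a' * g⁻¹) * g := by group
    rw [e, hb]
    group

theorem kI_conj (p : ℕ) {E : Type} [Group E] (G : Subgroup E) [G.Normal] (χ : G → ℂ) (d : ℕ)
    (U : Subgroup (E ⧸ G)) (g : E) (hg : g ∈ G) (S : Subgroup E) :
    kI red p G χ d U (conjSub g S) = kI red p G χ d U S := by
  unfold kI
  rw [card_transport (cG (G := G) g S)]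
  congr 1
  refine Nat.card_congr (Equiv.subtypeEquivRight fun ψ => and_congr_right fun _ =>
    and_congr ?_ (and_congr (Dft_congr (cG (G := G) g S) ψ).symm ?_))
  · have := Ind_iso red (cG (G := G) g S) (MulEquiv.refl G)
      (Subgroup.inclusion (inf_le_left : G ⊓ S ≤ G))
      (Subgroup.inclusion (inf_le_left : G ⊓ conjSub g S ≤ G)) (fun x => ?_) χ ψ
    · exact this.symm
    · exact isConj_iff.2 ⟨⟨g, hg⟩, Subtype.ext rfl⟩
  · rw [inert_conj, map_mk_conj hg]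

variable {E₁ E₂ : Type} [Group E₁] [Group E₂] [Finite E₁] [Finite E₂] {p : ℕ}
  {G₁ : Subgroup E₁} {G₂ : Subgroup E₂} [G₁.Normal] [G₂.Normal] [(G₁.prod G₂).Normal]

/-- the character `χ ⊗ χ'` of `G₁ × G₂` -/
def tenG (χ : G₁ → ℂ) (χ' : G₂ → ℂ) : G₁.prod G₂ → ℂ :=
  fun x => ten χ χ' (Subgroup.prodEquiv G₁ G₂ x)

/-- the product decomposition of `N_{G₁ × G₂}(C)` -/
def pE (H : Subgroup E₁) (K : Subgroup E₂) :
    ((G₁.prod G₂) ⊓ (H.prod K) : Subgroup (E₁ × E₂)) ≃*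
      (G₁ ⊓ H : Subgroup E₁) × (G₂ ⊓ K : Subgroup E₂) :=
  (MulEquiv.subgroupCongr (inf_prod (G₁ := G₁) (G₂ := G₂) H K)).trans (Subgroup.prodEquiv _ _)

theorem pE_fst (H : Subgroup E₁) (K : Subgroup E₂)
    (x : ((G₁.prod G₂) ⊓ (H.prod K) : Subgroup (E₁ × E₂))) :
    (((pE (G₁ := G₁) (G₂ := G₂) H K x).1 : (G₁ ⊓ H : Subgroup E₁)) : E₁) = (x : E₁ × E₂).1 := rfl

theorem pE_snd (H : Subgroup E₁) (K : Subgroup E₂)
    (x : ((G₁.prod G₂) ⊓ (H.prod K) : Subgroup (E₁ × E₂))) :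
    (((pE (G₁ := G₁) (G₂ := G₂) H K x).2 : (G₂ ⊓ K : Subgroup E₂)) : E₂) = (x : E₁ × E₂).2 := rfl

theorem inert_prod (H : Subgroup E₁) (K : Subgroup E₂) {θ : (G₁ ⊓ H : Subgroup E₁) → ℂ}
    {ψ : (G₂ ⊓ K : Subgroup E₂) → ℂ} (hθ : IsIrrChar θ) (hψ : IsIrrChar ψ) :
    inert (G₁.prod G₂) (H.prod K) (fun x => ten θ ψ (pE H K x)) =
      (inert G₁ H θ).prod (inert G₂ K ψ) := by
  have := Fintype.ofFinite (G₁ ⊓ H : Subgroup E₁)
  have := Fintype.ofFinite (G₂ ⊓ K : Subgroup E₂)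
  ext ⟨y, z⟩
  constructor
  · intro hyz
    obtain ⟨hyz', h⟩ := mem_inert.1 hyz
    obtain ⟨hy, hz⟩ := Subgroup.mem_prod.1 hyz'
    rw [fx_iff (⟨hy, hz⟩ : (y, z) ∈ H.prod K)] at h
    have h1 : ten (fun x => θ (cjS G₁ H y hy x)) (fun x => ψ (cjS G₂ K z hz x)) = ten θ ψ := by
      funext x
      obtain ⟨w, rfl⟩ := (pE (G₁ := G₁) (G₂ := G₂) H K).surjective x
      exact h w
    obtain ⟨e1, e2⟩ := ten_inj (irr_comp (cjS G₁ H y hy) hθ) (irr_comp (cjS G₂ K z hz) hψ) hθ hψ h1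
    exact Subgroup.mem_prod.2 ⟨mem_inert.2 ⟨hy, (fx_iff hy θ).2 fun x => congrFun e1 x⟩,
      mem_inert.2 ⟨hz, (fx_iff hz ψ).2 fun x => congrFun e2 x⟩⟩
  · intro hyz
    obtain ⟨hyz1, hyz2⟩ := Subgroup.mem_prod.1 hyz
    obtain ⟨hy, h1⟩ := mem_inert.1 hyz1
    obtain ⟨hz, h2⟩ := mem_inert.1 hyz2
    refine mem_inert.2 ⟨Subgroup.mem_prod.2 ⟨hy, hz⟩, ?_⟩
    rw [fx_iff hy] at h1
    rw [fx_iff hz] at h2
    rw [fx_iff (⟨hy, hz⟩ : (y, z) ∈ H.prod K)]
    intro x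
    change θ (cjS G₁ H y hy (pE H K x).1) * ψ (cjS G₂ K z hz (pE H K x).2) = _
    rw [h1, h2]
    rfl

theorem kI_prod {χ : G₁ → ℂ} {χ' : G₂ → ℂ} (hχ : IsIrrChar χ) (hχ' : IsIrrChar χ') (d : ℕ)
    (U : Subgroup (E₁ ⧸ G₁)) (V : Subgroup (E₂ ⧸ G₂)) (H : Subgroup E₁) (K : Subgroup E₂) :
    kI red p (G₁.prod G₂) (tenG χ χ') d (prodU G₁ G₂ U V) (H.prod K) =
      ∑ i ∈ Finset.HasAntidiagonal.antidiagonal d, kI red p G₁ χ i.1 U H * kI red p G₂ χ' i.2 V K := by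
  have := Fintype.ofFinite (G₁ ⊓ H : Subgroup E₁)
  have := Fintype.ofFinite (G₂ ⊓ K : Subgroup E₂)
  unfold kI
  rw [card_transport (pE (G₁ := G₁) (G₂ := G₂) H K),
    card_prod (Finset.HasAntidiagonal.antidiagonal d) _
      (fun (i : ℕ × ℕ) θ => Ind red (Subgroup.inclusion (inf_le_left : G₁ ⊓ H ≤ G₁)) χ θ ∧
        Dft p i.1 θ ∧ (inert G₁ H θ).map (QuotientGroup.mk' G₁) = U)
      (fun (i : ℕ × ℕ) ψ => Ind red (Subgroup.inclusion (inf_le_left : G₂ ⊓ K ≤ G₂)) χ' ψ ∧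
        Dft p i.2 ψ ∧ (inert G₂ K ψ).map (QuotientGroup.mk' G₂) = V)]
  · push_cast
    rfl
  · intro θ ψ h1 h2
    have e1 : Ind red (Subgroup.inclusion (inf_le_left : (G₁.prod G₂) ⊓ (H.prod K) ≤ G₁.prod G₂))
        (tenG χ χ') (fun x => ten θ ψ (pE H K x)) ↔
          Ind red (Subgroup.inclusion (inf_le_left : G₁ ⊓ H ≤ G₁)) χ θ ∧
            Ind red (Subgroup.inclusion (inf_le_left : G₂ ⊓ K ≤ G₂)) χ' ψ := by
      rw [← Ind_ten red (Subgroup.inclusion_injective _) (Subgroup.inclusion_injective _) hχ hχ'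
        h1 h2]
      exact Ind_iso red (pE (G₁ := G₁) (G₂ := G₂) H K) (Subgroup.prodEquiv G₁ G₂) _ _
        (fun x => IsConj.refl _) (ten χ χ') (ten θ ψ)
    rw [e1, Dft_congr (pE (G₁ := G₁) (G₂ := G₂) H K) (ten θ ψ), Dft_ten h1 h2,
      inert_prod H K h1 h2, map_prod_iff]
    constructor
    · rintro ⟨⟨a, b⟩, ⟨i, hi, c, d⟩, e, f⟩
      exact ⟨i, hi, ⟨a, c, e⟩, b, d, f⟩
    · rintro ⟨i, hi, ⟨a, c, e⟩, b, d, f⟩
      exact ⟨⟨a, b⟩, ⟨i, hi, c, d⟩, e, f⟩
  · intro θ ψ i hi j hj h1 h2 h3 h4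
    exact Prod.ext (Dft_unique h1.2.1 h3.2.1) (Dft_unique h2.2.1 h4.2.1)

theorem kI_other {χ : G₁ → ℂ} {χ' : G₂ → ℂ} (d : ℕ) {W : Subgroup ((E₁ × E₂) ⧸ G₁.prod G₂)}
    (hW : ∀ U V, prodU G₁ G₂ U V ≠ W) (H : Subgroup E₁) (K : Subgroup E₂) :
    kI red p (G₁.prod G₂) (tenG χ χ') d W (H.prod K) = 0 := by
  have := Fintype.ofFinite (G₁ ⊓ H : Subgroup E₁)
  have := Fintype.ofFinite (G₂ ⊓ K : Subgroup E₂)
  unfold kI
  rw [card_transport (pE (G₁ := G₁) (G₂ := G₂) H K),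
    card_prod (∅ : Finset ℕ) _ (fun _ _ => False) (fun _ _ => False)]
  · simp
  · intro θ ψ h1 h2
    constructor
    · rintro ⟨-, -, e⟩
      rw [inert_prod H K h1 h2] at e
      refine absurd ?_ (hW ((inert G₁ H θ).map (QuotientGroup.mk' G₁))
        ((inert G₂ K ψ).map (QuotientGroup.mk' G₂)))
      rw [← e]
      exact ((map_prod_iff _ _ _ _).2 ⟨rfl, rfl⟩).symm
    · rintro ⟨i, hi, -⟩
      exact absurd hi (Finset.notMem_empty i)
  · intro θ ψ i hi
    exact absurd hi (Finset.notMem_empty i)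

/-- Dade's sums for the different defects -/
def isum (p : ℕ) {E : Type} [Group E] (G : Subgroup E) [G.Normal] (χ : G → ℂ)
    (U : Subgroup (E ⧸ G)) (d : ℕ) : ℤ := radSum p G (kI red p G χ d U)

theorem isum_prod [Fact p.Prime] (h₁ : IsOp p G₁ ⊥) (h₂ : IsOp p G₂ ⊥) {χ : G₁ → ℂ}
    {χ' : G₂ → ℂ} (hχ : IsIrrChar χ) (hχ' : IsIrrChar χ') (U : Subgroup (E₁ ⧸ G₁))
    (V : Subgroup (E₂ ⧸ G₂)) (d : ℕ) :
    isum red p (G₁.prod G₂) (tenG χ χ') (prodU G₁ G₂ U V) d =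
      conv (isum red p G₁ χ U) (isum red p G₂ χ' V) d := by
  unfold isum conv
  rw [isOp_iff] at h₁ h₂
  exact radSum_prod h₁ h₂ (Finset.HasAntidiagonal.antidiagonal d) _
    (fun i : ℕ × ℕ => kI red p G₁ χ i.1 U) (fun i : ℕ × ℕ => kI red p G₂ χ' i.2 V)
    (fun g hg S => kI_conj red p _ _ d _ g hg S) (fun i g hg S => kI_conj red p _ _ _ _ g hg S)
    (fun i g hg S => kI_conj red p _ _ _ _ g hg S) (fun H K => kI_prod red hχ hχ' d U V H K)

theorem isum_other [Fact p.Prime] (h₁ : IsOp p G₁ ⊥) (h₂ : IsOp p G₂ ⊥) {χ : G₁ → ℂ}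
    {χ' : G₂ → ℂ} {W : Subgroup ((E₁ × E₂) ⧸ G₁.prod G₂)}
    (hW : ∀ U V, prodU G₁ G₂ U V ≠ W) (d : ℕ) :
    isum red p (G₁.prod G₂) (tenG χ χ') W d = 0 := by
  unfold isum
  rw [isOp_iff] at h₁ h₂
  rw [radSum_prod h₁ h₂ (∅ : Finset ℕ) _ (fun _ _ => 0) (fun _ _ => 0)
    (fun g hg S => kI_conj red p _ _ d _ g hg S) (fun _ _ _ _ => rfl) (fun _ _ _ _ => rfl)
    (fun H K => by rw [kI_other red d hW H K, Finset.sum_empty]), Finset.sum_empty]

theorem isum_supp {E : Type} [Group E] [Finite E] {p : ℕ} (hp : p.Prime) (G : Subgroup E)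
    [G.Normal] (χ : G → ℂ) (U : Subgroup (E ⧸ G)) {d : ℕ} (hd : Nat.log 2 (Nat.card E) < d) :
    isum red p G χ U d = 0 := by
  have h0 : ∀ S : Subgroup E, kI red p G χ d U S = 0 := by
    intro S
    unfold kI
    have : IsEmpty {ψ : (G ⊓ S : Subgroup E) → ℂ // IsIrrChar ψ ∧
        (Ind red (Subgroup.inclusion (inf_le_left : G ⊓ S ≤ G)) χ ψ ∧ Dft p d ψ ∧
          (inert G S ψ).map (QuotientGroup.mk' G) = U)} := by
      refine ⟨?_⟩
      rintro ⟨ψ, -, -, h, -⟩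
      have h1 := Dft_le h
      have h2 : 2 ^ (Nat.card (G ⊓ S : Subgroup E)).factorization p ≤ Nat.card E := by
        calc 2 ^ (Nat.card (G ⊓ S : Subgroup E)).factorization p
            ≤ p ^ (Nat.card (G ⊓ S : Subgroup E)).factorization p :=
              Nat.pow_le_pow_left hp.two_le _
          _ ≤ Nat.card (G ⊓ S : Subgroup E) := Nat.le_of_dvd Nat.card_pos (Nat.ordProj_dvd _ _)
          _ ≤ Nat.card E := Nat.le_of_dvd Nat.card_pos (Subgroup.card_subgroup_dvd_card _)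
      have h3 := Nat.le_log_of_pow_le (b := 2) (by norm_num) h2
      omega
    rw [Nat.card_of_isEmpty]
    rfl
  unfold isum radSum
  simp only [h0, mul_zero, finsum_zero]

theorem tenG_irr {χ : G₁ → ℂ} {χ' : G₂ → ℂ} (h : IsIrrChar χ) (h' : IsIrrChar χ') :
    IsIrrChar (tenG χ χ') := by
  have := Fintype.ofFinite G₁
  have := Fintype.ofFinite G₂
  exact irr_comp (Subgroup.prodEquiv G₁ G₂) (ten_irr h h')

theorem tenG_dft {χ : G₁ → ℂ} {χ' : G₂ → ℂ} (h : IsIrrChar χ) (h' : IsIrrChar χ') {i j : ℕ}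
    (e : Dft p i χ) (e' : Dft p j χ') : Dft p (i + j) (tenG χ χ') := by
  have := Fintype.ofFinite G₁
  have := Fintype.ofFinite G₂
  exact (Dft_congr (Subgroup.prodEquiv G₁ G₂) (ten χ χ')).2 (Dft_ten' h h' e e')

end kk

end Pool.Agent.Q99.AS
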